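import Pool.Agent.H8.FX.Cls
import Pool.Agent.H34.ES.Spc

/-! # FX.Bas : rows: constants, existence and closedness of specialisations, scalings, points with `β = 0` (about 250 lines)

`OnX_cst`: `OnW_cst`, `ev_cst`; `Over` is preserved by field homomorphisms.  `map_cstR`: `map_cst` in `Spc`.
`SpR_cst`: scalar `1`, `π.const`, `Sp_cst` (`NZ` is part of `OnW`).
`SpV_exists`: choose the index `i` for which `β i ≠ 0` and `v(β i)^(M / v i)` (`M = ∏ v`) is largest, `d` with `d ^ v i * β i = 1`; see the proof of `Sp_exists` in `Spc.lean` (or apply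
`Sp_exists` to the point `⟨β, 0, 0⟩` of a Weierstrass model with the same weights: `Sp` gives `p.NZ`, and `p.x = p.y = 0` because `0` reduces to `0`, so `p.β ≠ 0`).
`SpR_exists`: `SpV_exists` and `Sp_exists`.
`SpR_onX`: `ne` from `SpV`; `I`: `ev_scale` and `rd_ev` as in `Sp_onW`; `on`: `Sp_onW`; `ov`: if `(R.P j).β = 0` then `(r.P j).β = 0`; otherwise `(R.P j).β = d ^ v * R.β`, `e ^ v * R.β → r.β ≠ 0`, `f ^ v * (R.P j).β → (r.P j).β`, so
`g := f d / e` satisfies `g ^ v * (e ^ v * R.β) → (r.P j).β`; for `i0` with `r.β i0 ≠ 0` the element `g ^ (v i0)` is integral, so `g ∈ V` (`mem_of_pow`), `g → g0`, `(r.P j).β = g0 ^ v * r.β`; if `g0 = 0` this is `0` (`v > 0`).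
`clsX_eq_of_sp`: `LimX.eq` for the multiset `{S}` (`LimX.single`).
`clsX_scale`: the constant tuple `R` (`OnX_cst`, `map_cstR`) specialises to `R` and to the scaled tuple (`Sp_smul`; `SpV` with the scalar `d`), at any place (`two_places` in `Fib.lean` gives one, or `Place` from `place_exists`).
`Sp_o_zero`: `Q.β = 0`, `y^2 = x^3`, `x ≠ 0`; `t = y / x`, `x = t^2`, `y = t^3`, `d ^ n = t` (`IsAlgClosed.exists_pow_nat_eq`); the scalar `d` sends `(0 : 1 : 1)` to `(0 : x : y)`.
`clsX_zero`: the constant tuple with `o` in the place of `(R i).P j` specialises to this tuple over `K` (class zero by `clsX_o`) and to `R` (`Sp_o_zero`). -/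

namespace FX

open ES H68.BB
open H67.KH (sigma_cst)

variable {K : Type} [Field K] {s c k : ℕ} {X : XD K s c}

/-- replace the point in slot `i`, column `j` -/
def setP {F : Type} (R : Fin k → Row s c F) (i : Fin k) (j : Fin c) (Q : Pt s F) : Fin k → Row s c F :=
  Function.update R i ⟨(R i).β, Function.update (R i).P j Q⟩

theorem OnX_cst {R : Row s c K} (h : OnX X R) : OnX X (R.map (algebraMap K (Om K))) := by
  have hinj := (algebraMap K (Om K)).injective
  refine ⟨?_, ?_, fun j => OnW_cst (h.on j), fun j => ?_⟩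
  · intro h1
    apply h.ne
    funext i
    exact (map_eq_zero_iff _ hinj).1 (congrFun h1 i)
  · intro f hf
    show ev f (fun i => algebraMap K (Om K) (R.β i)) = 0
    rw [ev_cst, h.I f hf, map_zero]
  · rcases h.ov j with h1 | ⟨d, hd, h1⟩
    · left
      funext i
      show algebraMap K (Om K) ((R.P j).β i) = 0
      rw [h1, Pi.zero_apply, map_zero]
    · right
      refine ⟨algebraMap K (Om K) d, (map_ne_zero_iff _ hinj).2 hd, ?_⟩
      funext i
      show algebraMap K (Om K) ((R.P j).β i) = algebraMap K (Om K) d ^ X.v i * algebraMap K (Om K) (R.β i)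
      rw [h1, map_mul, map_pow]

theorem map_cstR (σ : Om K ≃ₐ[RatFunc K] Om K) (R : Row s c K) :
    (R.map (algebraMap K (Om K))).map σ = R.map (algebraMap K (Om K)) := by
  unfold Row.map
  refine Row.ext ?_ ?_
  · funext i
    exact sigma_cst σ _
  · funext j
    exact map_cst σ _

theorem SpR_cst (π : Place K (Om K)) {R : Row s c K} (h : OnX X R) : SpR X π (R.map (algebraMap K (Om K))) R := by
  refine ⟨⟨h.ne, 1, one_ne_zero, fun i => ?_⟩, fun j => Sp_cst π (h.on j).1⟩
  rw [one_pow, one_mul]
  exact π.const _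

/-- the Weierstrass model used for the base alone -/
private noncomputable def W0 (v : Fin s → ℕ) : Wm K s := ⟨v, 1, ∅, 0, 0⟩

private theorem W0_ok {v : Fin s → ℕ} (hv : ∀ i, 0 < v i) : (W0 (K := K) v).Ok :=
  ⟨hv, one_pos, fun f hf => absurd hf (Set.notMem_empty f), MvPolynomial.isWeightedHomogeneous_zero _ _ _,
    MvPolynomial.isWeightedHomogeneous_zero _ _ _⟩

theorem SpV_exists [IsAlgClosed K] {v : Fin s → ℕ} (hv : ∀ i, 0 < v i) (π : Place K (Om K)) {β : Fin s → Om K} (h : β ≠ 0) :
    ∃ β0 : Fin s → K, SpV v π β β0 := by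
  obtain ⟨p, hp, c, hc, h0, h2, h3⟩ := Sp_exists (W0_ok hv) π (P := ⟨β, 0, 0⟩) (Or.inl h)
  refine ⟨p.β, ?_, c, hc, h0⟩
  have hx : p.x = 0 := by
    have h4 : Rd π.V π.φ (c ^ (2 * (W0 (K := K) v).n) * (0 : Om K)) p.x := h2
    rw [mul_zero] at h4
    exact h4.unique Rd.zero
  have hy : p.y = 0 := by
    have h4 : Rd π.V π.φ (c ^ (3 * (W0 (K := K) v).n) * (0 : Om K)) p.y := h3
    rw [mul_zero] at h4
    exact h4.unique Rd.zero
  rcases hp with hp | hp | hp
  · exact hp
  · exact absurd hx hp
  · exact absurd hy hp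

/-- two specialisations of homogeneous coordinates are proportional -/
private theorem SpV_base {v : Fin s → ℕ} (hv : ∀ i, 0 < v i) {π : Place K (Om K)} {β : Fin s → Om K} {β0 β1 : Fin s → K} {g : Om K}
    (hg : g ≠ 0) (h0 : ∀ i, Rd π.V π.φ (β i) (β0 i)) (hne : β0 ≠ 0) (h1 : ∀ i, Rd π.V π.φ (g ^ v i * β i) (β1 i)) :
    ∃ c : K, ∀ i, β1 i = c ^ v i * β0 i := by
  by_cases hz : β1 = 0
  · refine ⟨0, fun i => ?_⟩
    rw [hz, zero_pow (hv i).ne', zero_mul]
    rfl
  · refine Sp_base (W := W0 (K := K) v) (P := ⟨β, 0, 0⟩) (p := ⟨β1, 0, 0⟩) ⟨Or.inl hz, g, hg, h1, ?_, ?_⟩ hv h0 hne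
    · rw [mul_zero]; exact Rd.zero
    · rw [mul_zero]; exact Rd.zero

theorem SpR_exists [IsAlgClosed K] (hX : X.Ok) (π : Place K (Om K)) {R : Row s c (Om K)} (h : OnX X R) :
    ∃ r : Row s c K, SpR X π R r := by
  obtain ⟨β0, hβ0⟩ := SpV_exists hX.v π h.ne
  choose p hp using fun j => Sp_exists (hX.W j) π (h.on j).1
  exact ⟨⟨β0, p⟩, hβ0, hp⟩

theorem SpR_onX (hX : X.Ok) {π : Place K (Om K)} {R : Row s c (Om K)} {r : Row s c K} (h : OnX X R) (h' : SpR X π R r) :
    OnX X r := by
  obtain ⟨hr, e, he, h0⟩ := h'.β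
  refine ⟨hr, ?_, fun j => Sp_onW (hX.W j) (h.on j) (h'.P j), fun j => ?_⟩
  · intro f hf
    obtain ⟨m, hm, hh⟩ := hX.I f hf
    have h4 := rd_ev f h0
    rw [ev_scale hh, h.I f hf, mul_zero] at h4
    exact h4.unique Rd.zero
  · obtain ⟨-, f, hf, h1, -, -⟩ := h'.P j
    rcases h.ov j with h2 | ⟨d, hd, h2⟩
    · left
      funext i
      have h3 := h1 i
      rw [h2, Pi.zero_apply, mul_zero] at h3
      exact h3.unique Rd.zero
    · obtain ⟨g, hg⟩ := SpV_base hX.v (g := f * d / e) (div_ne_zero (mul_ne_zero hf hd) he) h0 hr (β1 := (r.P j).β) (fun i => by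
        have h3 := h1 i
        have h5 : f ^ (X.W j).v i * (R.P j).β i = (f * d / e) ^ X.v i * (e ^ X.v i * R.β i) := by
          show f ^ X.v i * (R.P j).β i = _
          rw [h2]
          show f ^ X.v i * (d ^ X.v i * R.β i) = _
          rw [← mul_assoc, ← mul_assoc, ← mul_pow, ← mul_pow, div_mul_cancel₀ _ he]
        rw [h5] at h3
        exact h3)
      by_cases hg0 : g = 0
      · left
        funext i
        rw [hg i, hg0, zero_pow (hX.v i).ne', zero_mul]
        rfl
      · exact Or.inr ⟨g, hg0, funext hg⟩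

theorem clsX_eq_of_sp {S : Fin k → Row s c (Om K)} (hS : ∀ i, OnX X (S i))
    (hG : ∀ (σ : Om K ≃ₐ[RatFunc K] Om K) (i : Fin k), (S i).map σ = S i) {π π' : Place K (Om K)} {R R' : Fin k → Row s c K}
    (h : SpX X π S R) (h' : SpX X π' S R') : clsX X R = clsX X R' := by
  refine LimX.eq (S := {S}) ?_ ?_ (LimX.single h) (LimX.single h')
  · intro T hT i
    rw [Multiset.mem_singleton.1 hT]
    exact hS i
  · intro σ
    rw [Multiset.map_singleton]
    congr 1
    funext i
    exact hG σ i

/-- a specialisation of a constant tuple -/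
private theorem clsX_cst_eq {T R' : Fin k → Row s c K} {π : Place K (Om K)} (hT : ∀ i, OnX X (T i))
    (h : SpX X π (fun i => (T i).map (algebraMap K (Om K))) R') : clsX X R' = clsX X T :=
  clsX_eq_of_sp (fun i => OnX_cst (hT i)) (fun σ _ => map_cstR σ _) h (fun i => SpR_cst π (hT i))

/-- scaling the base vector of a row -/
theorem clsX_scaleβ [IsAlgClosed K] {R : Fin k → Row s c K} (hR : ∀ i, OnX X (R i)) (i : Fin k) {d : K} (hd : d ≠ 0) :
    clsX X (Function.update R i ⟨fun l => d ^ X.v l * (R i).β l, (R i).P⟩) = clsX X R := by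
  obtain ⟨π, -, -⟩ := place_exists K 0
  have hinj := (algebraMap K (Om K)).injective
  refine clsX_cst_eq (π := π) hR fun i' => ?_
  by_cases hi : i' = i
  · subst hi
    rw [Function.update_self]
    refine ⟨⟨?_, algebraMap K (Om K) d, (map_ne_zero_iff _ hinj).2 hd, fun l => ?_⟩, fun j => Sp_cst π ((hR i').on j).1⟩
    · intro h1
      apply (hR i').ne
      funext l
      exact (mul_eq_zero.1 (congrFun h1 l : d ^ X.v l * (R i').β l = 0)).resolve_left (pow_ne_zero _ hd)
    · have hc' : Rd π.V π.φ (algebraMap K (Om K) d) d := π.const d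
      exact (hc'.pow _).mul (π.const _)
  · rw [Function.update_of_ne hi]
    exact SpR_cst π (hR i')

/-- scaling one point of a row -/
theorem clsX_scale [IsAlgClosed K] {R : Fin k → Row s c K} (hR : ∀ i, OnX X (R i)) (i : Fin k) (j : Fin c) {d : K} (hd : d ≠ 0) :
    clsX X (setP R i j (((R i).P j).smul (X.W j) d)) = clsX X R := by
  obtain ⟨π, -, -⟩ := place_exists K 0
  refine clsX_cst_eq (π := π) hR fun i' => ?_
  by_cases hi : i' = i
  · subst hi
    unfold setP
    rw [Function.update_self]
    refine ⟨(SpR_cst π (hR i')).β, fun j' => ?_⟩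
    by_cases hj : j' = j
    · subst hj
      show Sp (X.W j') π (((R i').P j').map (algebraMap K (Om K))) (Function.update (R i').P j' _ j')
      rw [Function.update_self]
      exact Sp_smul (Sp_cst π ((hR i').on j').1) hd
    · show Sp (X.W j') π (((R i').P j').map (algebraMap K (Om K))) (Function.update (R i').P j _ j')
      rw [Function.update_of_ne hj]
      exact Sp_cst π ((hR i').on j').1
  · unfold setP
    rw [Function.update_of_ne hi]
    exact SpR_cst π (hR i')

theorem Sp_o_zero [IsAlgClosed K] {W : Wm K s} (hW : W.Ok) (π : Place K (Om K)) {Q : Pt s K} (hQ : OnW W Q) (h0 : Q.β = 0) :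
    Sp W π (o s (Om K)) Q := by
  have hn := hW.n
  have e1 : Q.y ^ 2 = Q.x ^ 3 := by
    have h1 := hQ.2.2
    rw [h0, ev_zero hW.a (by omega), ev_zero hW.b (by omega)] at h1
    linear_combination h1
  have hx : Q.x ≠ 0 := by
    intro hx
    rw [hx, zero_pow three_ne_zero] at e1
    have hy : Q.y = 0 := pow_eq_zero_iff two_ne_zero |>.1 e1
    rcases hQ.1 with h | h | h
    · exact h h0
    · exact h hx
    · exact h hy
  have hy : Q.y ≠ 0 := by
    intro hy
    rw [hy, zero_pow two_ne_zero] at e1
    exact hx (pow_eq_zero_iff three_ne_zero |>.1 e1.symm)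
  obtain ⟨d, hd⟩ := IsAlgClosed.exists_pow_nat_eq (Q.y / Q.x) hn
  have hd0 : d ≠ 0 := by
    rintro rfl
    rw [zero_pow hn.ne'] at hd
    exact (div_ne_zero hy hx) hd.symm
  have hx2 : d ^ (2 * W.n) = Q.x := by
    rw [mul_comm, pow_mul, hd, div_pow, e1]
    field_simp
  have hy3 : d ^ (3 * W.n) = Q.y := by
    rw [mul_comm, pow_mul, hd, div_pow, ← e1]
    field_simp
  have hc' : Rd π.V π.φ (algebraMap K (Om K) d) d := π.const d
  refine ⟨hQ.1, algebraMap K (Om K) d, (map_ne_zero_iff _ (algebraMap K (Om K)).injective).2 hd0, ?_, ?_, ?_⟩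
  · intro i
    rw [h0]
    show Rd π.V π.φ (algebraMap K (Om K) d ^ W.v i * 0) 0
    rw [mul_zero]
    exact Rd.zero
  · show Rd π.V π.φ (algebraMap K (Om K) d ^ (2 * W.n) * 1) Q.x
    rw [mul_one, ← hx2]
    exact hc'.pow _
  · show Rd π.V π.φ (algebraMap K (Om K) d ^ (3 * W.n) * 1) Q.y
    rw [mul_one, ← hy3]
    exact hc'.pow _

/-- a tuple with a point with zero base vector has class zero -/
theorem clsX_zero [IsAlgClosed K] (hX : X.Ok) {R : Fin k → Row s c K} (hR : ∀ i, OnX X (R i)) {i : Fin k} {j : Fin c}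
    (h0 : ((R i).P j).β = 0) : clsX X R = 0 := by
  obtain ⟨π, -, -⟩ := place_exists K 0
  have hT : ∀ i', OnX X (setP R i j (o s K) i') := by
    intro i'
    by_cases hi : i' = i
    · subst hi
      unfold setP
      rw [Function.update_self]
      refine ⟨(hR i').ne, (hR i').I, fun j' => ?_, fun j' => ?_⟩
      · by_cases hj : j' = j
        · subst hj
          show OnW (X.W j') (Function.update (R i').P j' _ j')
          rw [Function.update_self]
          exact OnW_o (hX.W j') K
        · show OnW (X.W j') (Function.update (R i').P j _ j')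
          rw [Function.update_of_ne hj]
          exact (hR i').on j'
      · by_cases hj : j' = j
        · subst hj
          show Over X.v (R i').β (Function.update (R i').P j' _ j').β
          rw [Function.update_self]
          exact Or.inl rfl
        · show Over X.v (R i').β (Function.update (R i').P j _ j').β
          rw [Function.update_of_ne hj]
          exact (hR i').ov j'
    · unfold setP
      rw [Function.update_of_ne hi]
      exact hR i'
  have ho : (o s K).map (algebraMap K (Om K)) = o s (Om K) := by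
    unfold ES.Pt.map o
    refine ES.Pt.ext ?_ (map_one _) (map_one _)
    funext i
    exact map_zero _
  have h1 : clsX X R = clsX X (setP R i j (o s K)) := by
    refine clsX_cst_eq (π := π) hT fun i' => ?_
    by_cases hi : i' = i
    · subst hi
      refine ⟨?_, fun j' => ?_⟩
      · have h2 := (SpR_cst π (hR i')).β
        show SpV X.v π (fun l => algebraMap K (Om K) ((setP R i' j (o s K) i').β l)) (R i').β
        unfold setP
        rw [Function.update_self]
        exact h2
      · by_cases hj : j' = j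
        · subst hj
          have e2 : (setP R i' j' (o s K) i').P j' = o s K := by
            unfold setP
            rw [Function.update_self]
            exact Function.update_self _ _ _
          show Sp (X.W j') π (((setP R i' j' (o s K) i').P j').map (algebraMap K (Om K))) ((R i').P j')
          rw [e2, ho]
          exact Sp_o_zero (hX.W j') π ((hR i').on j') h0
        · have e2 : (setP R i' j (o s K) i').P j' = (R i').P j' := by
            unfold setP
            rw [Function.update_self]
            exact Function.update_of_ne hj _ _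
          show Sp (X.W j') π (((setP R i' j (o s K) i').P j').map (algebraMap K (Om K))) ((R i').P j')
          rw [e2]
          exact Sp_cst π ((hR i').on j').1
    · have e2 : setP R i j (o s K) i' = R i' := by
        unfold setP
        exact Function.update_of_ne hi _ _
      show SpR X π ((setP R i j (o s K) i').map (algebraMap K (Om K))) (R i')
      rw [e2]
      exact SpR_cst π (hR i')
  rw [h1]
  refine clsX_o X (i := i) (j := j) ?_
  unfold setP
  rw [Function.update_self]
  exact Function.update_self _ _ _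

end FX
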