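import Pool.Agent.H8.FX.ThB
import Pool.Agent.H34.ES.Lim

/-! # FX.Theta : TRANSPORT: classes on the fibre model of column `j` act on column `j` of `X^k` (about 150 lines)

`T : Cyc k 2 K →+ AAX k X`, `T (pt Q) = val X β P j Q` (`Finsupp.linearCombination ℤ` or `Finsupp.liftAddHom`).  `T` kills `Rel k (FMj X β j)` (`AddSubgroup.closure_induction`, twice):
(1) generators of `RatEq`: `S`, `π`, `π'`, `C`, `C'`: by `lim_pat` at `π` and at `π'` and `LimX.eq` the two classes are equal for every `σ` (`AllOnX`: `newR_on` for the members of `S.filter (Pat σ)`; `GalX`: `newR_gal`, and `S.filter (Pat σ)` is stable by `Pat_map`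
(`Multiset.filter_map`)); multiply by `sgn σ` and sum over `σ`: `T (cyc C) = ∑ q ∈ C, val q = ∑ σ, sgn σ • ∑ q ∈ C, (if ..)`.
(2) `Q i = o`: `At` is false because `o.β 0 = 0`, so `val = 0`.
(3) `val (fun i => Q (τ i)) = sgn τ • val Q`: `Pat (σ * τ) (Q ∘ τ) ↔ Pat σ Q` and `newR (σ * τ) (Q ∘ τ) = newR σ Q`; reindex by `Equiv.mulRight τ`.
`θ` = the map induced on the quotient (`QuotientAddGroup.lift`).  Formula: if `(Q i).β = bv (σ i)` then `Pat σ' Q` holds only for `σ' = σ` (`At.unique`), `nx = x`, `ny = y` (`β 0 = 1`), and `newR β P j σ Q = rows β (Function.update P j ..)` (`algebraMap K K = id`). -/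

namespace FX

open ES H68.BB

variable {K : Type} [Field K] {s c k : ℕ} {X : XD K s c}

/-- the homomorphism before passing to classes -/
private noncomputable def TT (X : XD K s c) (β : Fin k → Fin s → K) (P : Fin c → Fin k → Pt s K) (j : Fin c) :
    Cyc k 2 K →+ AAX k X :=
  Finsupp.liftAddHom (fun Q => zmultiplesHom (AAX k X) (val X β P j Q))

private theorem TT_pt (β : Fin k → Fin s → K) (P : Fin c → Fin k → Pt s K) (j : Fin c) (Q : Fin k → Pt 2 K) :
    TT X β P j (ES.pt Q) = val X β P j Q := by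
  unfold TT ES.pt
  rw [Finsupp.liftAddHom_apply_single, zmultiplesHom_apply, one_smul]

private theorem TT_cyc (β : Fin k → Fin s → K) (P : Fin c → Fin k → Pt s K) (j : Fin c) (S : Multiset (Fin k → Pt 2 K)) :
    TT X β P j (cyc S) = (S.map (val X β P j)).sum := by
  unfold cyc
  rw [map_multiset_sum, Multiset.map_map]
  congr 1
  refine Multiset.map_congr rfl fun Q _ => ?_
  exact TT_pt β P j Q

open Classical in
private theorem sum_val (β : Fin k → Fin s → K) (P : Fin c → Fin k → Pt s K) (j : Fin c) (S : Multiset (Fin k → Pt 2 K)) :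
    (S.map (val X β P j)).sum = ∑ σ : Equiv.Perm (Fin k), (Equiv.Perm.sign σ : ℤ) •
      (S.map (fun q => if Pat σ q then clsX X (newR β P j σ q) else 0)).sum := by
  induction S using Multiset.induction_on with
  | empty => simp
  | cons q S ih =>
    rw [Multiset.map_cons, Multiset.sum_cons, ih]
    unfold val
    rw [← Finset.sum_add_distrib]
    refine Finset.sum_congr rfl fun σ _ => ?_
    rw [Multiset.map_cons, Multiset.sum_cons, zsmul_add]
    congr 1
    split_ifs with h
    · rfl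
    · rw [zsmul_zero]

open Classical in
private theorem gal_aux (β : Fin k → Fin s → K) (P : Fin c → Fin k → Pt s K) (j : Fin c) (σ : Equiv.Perm (Fin k))
    {S : Multiset (Fin k → Pt 2 (Om K))} (hG : GalStable S) : GalX ((S.filter (Pat σ)).map (newR β P j σ)) := by
  intro τ
  have h1 : (S.filter (Pat σ)).map (fun (Q : Fin k → Pt 2 (Om K)) (i : Fin k) => (Q i).map τ) = S.filter (Pat σ) := by
    conv_rhs => rw [← hG τ]
    rw [Multiset.filter_map]
    congr 1
    refine Multiset.filter_congr fun Q _ => ?_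
    exact (Pat_map τ).symm
  rw [Multiset.map_map]
  conv_rhs => rw [← h1]
  rw [Multiset.map_map]
  refine Multiset.map_congr rfl fun Q _ => ?_
  exact newR_gal β P j σ Q τ

private theorem val_gen [IsAlgClosed K] [CharZero K] (hX : X.Ok) (hk : 0 < k) {β : Fin k → Fin s → K} {P : Fin c → Fin k → Pt s K}
    (hP : ∀ i, OnX X (rows β P i)) (j : Fin c) {S : Multiset (Fin k → Pt 2 (Om K))} {π π' : Place K (Om K)}
    {C C' : Multiset (Fin k → Pt 2 K)} (hS : AllOn (FMj X β j) S) (hG : GalStable S)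
    (h : Multiset.Rel (SpT (FMj X β j) π) S C) (h' : Multiset.Rel (SpT (FMj X β j) π') S C') :
    (C.map (val X β P j)).sum = (C'.map (val X β P j)).sum := by
  classical
  rw [sum_val, sum_val]
  refine Finset.sum_congr rfl fun σ _ => ?_
  congr 1
  refine LimX.eq (S := (S.filter (Pat σ)).map (newR β P j σ)) (π := π) (π' := π') ?_ (gal_aux β P j σ hG) ?_ ?_
  · intro R hR
    obtain ⟨Q, hQ, rfl⟩ := Multiset.mem_map.1 hR
    obtain ⟨hQ1, hQ2⟩ := Multiset.mem_filter.1 hQ
    exact newR_on hk hP j (hS Q hQ1) hQ2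
  · exact lim_pat hX hk hP j σ hS h
  · exact lim_pat hX hk hP j σ hS h'

private theorem val_o (β : Fin k → Fin s → K) (P : Fin c → Fin k → Pt s K) (j : Fin c) {Q : Fin k → Pt 2 K} {i : Fin k}
    (h : Q i = o 2 K) : val X β P j Q = 0 := by
  unfold val
  refine Finset.sum_eq_zero fun σ _ => ?_
  rw [if_neg]
  intro hp
  have h1 := (hp i).1
  rw [h] at h1
  exact h1 rfl

private theorem Pat_comp (σ τ : Equiv.Perm (Fin k)) (Q : Fin k → Pt 2 K) :
    Pat (σ * τ) (fun i => Q (τ i)) ↔ Pat σ Q := by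
  constructor
  · intro h i
    have h1 := h (τ.symm i)
    rw [Equiv.Perm.mul_apply] at h1
    simpa using h1
  · intro h i
    exact h (τ i)

private theorem newR_comp (β : Fin k → Fin s → K) (P : Fin c → Fin k → Pt s K) (j : Fin c) (σ τ : Equiv.Perm (Fin k))
    (Q : Fin k → Pt 2 K) : newR β P j (σ * τ) (fun i => Q (τ i)) = newR β P j σ Q := by
  have h1 : ∀ i, τ ((σ * τ).symm i) = σ.symm i := by
    intro i
    have h2 : (σ * τ) ((σ * τ).symm i) = i := (σ * τ).apply_symm_apply i
    rw [Equiv.Perm.mul_apply] at h2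
    rw [← h2, Equiv.symm_apply_apply, h2]
  funext i
  unfold newR
  simp only [h1]

private theorem val_perm (β : Fin k → Fin s → K) (P : Fin c → Fin k → Pt s K) (j : Fin c) (τ : Equiv.Perm (Fin k))
    (Q : Fin k → Pt 2 K) : val X β P j (fun i => Q (τ i)) = (Equiv.Perm.sign τ : ℤ) • val X β P j Q := by
  unfold val
  rw [Finset.smul_sum]
  refine (Fintype.sum_equiv (Equiv.mulRight τ) _ _ fun σ => ?_).symm
  rw [Equiv.coe_mulRight, newR_comp, Equiv.Perm.sign_mul, Units.val_mul]
  by_cases hp : Pat σ Q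
  · rw [if_pos hp, if_pos ((Pat_comp σ τ Q).2 hp), smul_smul, mul_comm]
  · rw [if_neg hp, if_neg (fun h => hp ((Pat_comp σ τ Q).1 h)), smul_zero]

private theorem TT_ker [IsAlgClosed K] [CharZero K] (hX : X.Ok) (hk : 0 < k) {β : Fin k → Fin s → K} {P : Fin c → Fin k → Pt s K}
    (hP : ∀ i, OnX X (rows β P i)) (j : Fin c) : ES.Rel k (FMj X β j) ≤ (TT X β P j).ker := by
  unfold ES.Rel
  rw [AddSubgroup.closure_le]
  rintro z ((hz | ⟨Q, ⟨i, hi⟩, rfl⟩) | ⟨Q, τ, rfl⟩)
  · have h : ES.RatEq k (FMj X β j) ≤ (TT X β P j).ker := by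
      unfold ES.RatEq
      rw [AddSubgroup.closure_le]
      rintro z ⟨S, π, π', C, C', hS, hG, h, h', rfl⟩
      rw [SetLike.mem_coe, AddMonoidHom.mem_ker, map_sub, TT_cyc, TT_cyc, val_gen hX hk hP j hS hG h h', sub_self]
    exact h hz
  · rw [SetLike.mem_coe, AddMonoidHom.mem_ker, TT_pt, val_o β P j hi]
  · rw [SetLike.mem_coe, AddMonoidHom.mem_ker, map_sub, map_zsmul, TT_pt, TT_pt, val_perm, sub_self]

private theorem val_bv [CharZero K] (β : Fin k → Fin s → K) (P : Fin c → Fin k → Pt s K) (j : Fin c) (σ : Equiv.Perm (Fin k))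
    {Q : Fin k → Pt 2 K} (hQ : ∀ i, (Q i).β = bv ((σ i : Fin k) : ℕ)) :
    val X β P j Q = (Equiv.Perm.sign σ : ℤ) • clsX X (rows β (Function.update P j
        (fun i => ⟨β i, (Q (σ.symm i)).x, (Q (σ.symm i)).y⟩))) := by
  have h0 : ∀ i, (Q i).β 0 = 1 := fun i => by rw [hQ i]; rfl
  have h1 : ∀ i, (Q i).β 1 = (((σ i : Fin k) : ℕ) : K) := fun i => by rw [hQ i]; rfl
  have hat : Pat σ Q := fun i => ⟨by rw [h0 i]; exact one_ne_zero, by rw [h0 i, h1 i, mul_one]⟩
  unfold val
  rw [Finset.sum_eq_single σ]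
  · rw [if_pos hat]
    congr 2
    funext i
    unfold newR rows nx ny
    rw [h0, one_pow, one_pow, div_one, div_one]
    refine Row.ext rfl (funext fun l => ?_)
    show Function.update (fun l => (P l i).map (algebraMap K K)) j
      ⟨β i, (Q (σ.symm i)).x, (Q (σ.symm i)).y⟩ l = Function.update P j (fun i => ⟨β i, (Q (σ.symm i)).x, (Q (σ.symm i)).y⟩) l i
    by_cases hl : l = j
    · subst hl
      rw [Function.update_self, Function.update_self]
    · rw [Function.update_of_ne hl, Function.update_of_ne hl]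
      rfl
  · intro σ' _ hne
    rw [if_neg]
    intro hp
    apply hne
    ext i
    exact At.unique (K := K) (hp i) (hat i)
  · intro h
    exact absurd (Finset.mem_univ σ) h

/-- TRANSPORT -/
theorem theta [IsAlgClosed K] [CharZero K] (hX : X.Ok) (hk : 0 < k) {β : Fin k → Fin s → K} {P : Fin c → Fin k → Pt s K}
    (hP : ∀ i, OnX X (rows β P i)) (j : Fin c) : ∃ θ : AA k (FMj X β j) →+ AAX k X,
    ∀ (σ : Equiv.Perm (Fin k)) (Q : Fin k → Pt 2 K), (∀ i, (Q i).β = bv ((σ i : Fin k) : ℕ)) →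
      θ (cls (FMj X β j) Q) = (Equiv.Perm.sign σ : ℤ) • clsX X (rows β (Function.update P j
        (fun i => ⟨β i, (Q (σ.symm i)).x, (Q (σ.symm i)).y⟩))) := by
  refine ⟨QuotientAddGroup.lift (ES.Rel k (FMj X β j)) (TT X β P j) (TT_ker hX hk hP j), ?_⟩
  intro σ Q hQ
  have h : QuotientAddGroup.lift (ES.Rel k (FMj X β j)) (TT X β P j) (TT_ker hX hk hP j) (cls (FMj X β j) Q) =
      TT X β P j (ES.pt Q) := rfl
  rw [h, TT_pt, val_bv β P j σ hQ]

end FX
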