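import Pool.Agent.H34.ES.Def

/-! # FX.Def : zero-cycles on powers of a fibre product `X = W_1 ×_B ... ×_B W_c` of elliptic surfaces over a base curve
(definitions only, no sorry)

The base `B` has homogeneous coordinates `β : Fin s → F` of weights `v i` and a set `I` of weighted homogeneous equations; `W_j` is the
surface `y^2 = x^3 - 3 a_j(β) x - 2 b_j(β)`, `x`, `y` of weights `2 n_j`, `3 n_j`, with its zero section contracted to the point `o`
(`ES.Def`).  A point of `X` is a point `β` of `B` with a point of each `W_j` which lies over `β` or is `o`: so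
`X ⊂ B × W_1 × ... × W_c` is the fibre product over `B` of the Weierstrass fibrations `{(β, P) : P ∈ W_j lies over β or P = o}`.
Rational equivalence (`RatX`) is defined as in `ES.Def`. -/

namespace FX

open ES H68.BB

/-- the data: a base curve and `c` Weierstrass models over it -/
structure XD (K : Type) [Field K] (s c : ℕ) where
  /-- the weights of the coordinates of the base -/
  v : Fin s → ℕ
  /-- the equations of the base -/
  I : Set (MvPolynomial (Fin s) K)
  /-- `x`, `y` of the `j`-th surface have weights `2 n_j`, `3 n_j` -/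
  n : Fin c → ℕ
  a : Fin c → MvPolynomial (Fin s) K
  b : Fin c → MvPolynomial (Fin s) K

variable {K : Type} [Field K] {s c k : ℕ}

/-- the `j`-th surface -/
def XD.W (X : XD K s c) (j : Fin c) : Wm K s := ⟨X.v, X.n j, X.I, X.a j, X.b j⟩

/-- positive weights, weighted homogeneous polynomials -/
structure XD.Ok (X : XD K s c) : Prop where
  v : ∀ i, 0 < X.v i
  n : ∀ j, 0 < X.n j
  I : ∀ f ∈ X.I, ∃ m, 0 < m ∧ MvPolynomial.IsWeightedHomogeneous X.v f m
  a : ∀ j, MvPolynomial.IsWeightedHomogeneous X.v (X.a j) (4 * X.n j)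
  b : ∀ j, MvPolynomial.IsWeightedHomogeneous X.v (X.b j) (6 * X.n j)

theorem XD.Ok.W {X : XD K s c} (h : X.Ok) (j : Fin c) : (X.W j).Ok := ⟨h.v, h.n j, h.I, h.a j, h.b j⟩

/-- coordinates of a point of `X`: the base point and a point of each surface -/
@[ext] structure Row (s c : ℕ) (F : Type) where
  β : Fin s → F
  P : Fin c → Pt s F

/-- apply a map to the coordinates -/
def Row.map {F G : Type} (f : F → G) (R : Row s c F) : Row s c G := ⟨fun i => f (R.β i), fun j => (R.P j).map f⟩

/-- `β'` is zero or a coordinate vector of the same point as `β` -/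
def Over {F : Type} [Field F] (v : Fin s → ℕ) (β β' : Fin s → F) : Prop :=
  β' = 0 ∨ ∃ d : F, d ≠ 0 ∧ β' = fun i => d ^ v i * β i

/-- the row is a point of `X` -/
structure OnX {F : Type} [Field F] [Algebra K F] (X : XD K s c) (R : Row s c F) : Prop where
  ne : R.β ≠ 0
  I : ∀ f ∈ X.I, ev f R.β = 0
  on : ∀ j, OnW (X.W j) (R.P j)
  ov : ∀ j, Over X.v R.β (R.P j).β

/-- specialisation of homogeneous coordinates at a place -/
def SpV (v : Fin s → ℕ) (π : Place K (Om K)) (β : Fin s → Om K) (β0 : Fin s → K) : Prop :=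
  β0 ≠ 0 ∧ ∃ d : Om K, d ≠ 0 ∧ ∀ i, Rd π.V π.φ (d ^ v i * β i) (β0 i)

/-- specialisation of a row -/
structure SpR (X : XD K s c) (π : Place K (Om K)) (R : Row s c (Om K)) (R0 : Row s c K) : Prop where
  β : SpV X.v π R.β R0.β
  P : ∀ j, Sp (X.W j) π (R.P j) (R0.P j)

/-- specialisation of a `k`-tuple of rows -/
def SpX (X : XD K s c) (π : Place K (Om K)) (R : Fin k → Row s c (Om K)) (R0 : Fin k → Row s c K) : Prop :=
  ∀ i, SpR X π (R i) (R0 i)

/-- zero-cycles on the `k`-fold product: the free abelian group on the `k`-tuples of rows -/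
abbrev CycX (k s c : ℕ) (K : Type) : Type := (Fin k → Row s c K) →₀ ℤ

/-- the zero-cycle given by one `k`-tuple of rows -/
noncomputable def ptX (R : Fin k → Row s c K) : CycX k s c K := Finsupp.single R 1

/-- the zero-cycle given by a multiset of tuples of rows -/
noncomputable def cycX (S : Multiset (Fin k → Row s c K)) : CycX k s c K := (S.map ptX).sum

/-- all rows of the multiset are points of `X` -/
def AllOnX {F : Type} [Field F] [Algebra K F] (X : XD K s c) (S : Multiset (Fin k → Row s c F)) : Prop :=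
  ∀ R ∈ S, ∀ i, OnX X (R i)

/-- the multiset is stable under all automorphisms of `Ω` over `K(t)` -/
def GalX (S : Multiset (Fin k → Row s c (Om K))) : Prop :=
  ∀ σ : Om K ≃ₐ[RatFunc K] Om K, S.map (fun R i => (R i).map σ) = S

/-- zero-cycles of `X^k` rationally equivalent to zero: the subgroup generated by the differences of two fibres over `ℙ¹` of effective
1-cycles of `ℙ¹ × X^k` which are dominant over `ℙ¹` -/
noncomputable def RatX (k : ℕ) (X : XD K s c) : AddSubgroup (CycX k s c K) :=
  AddSubgroup.closure {z | ∃ (S : Multiset (Fin k → Row s c (Om K))) (π π' : Place K (Om K))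
    (C C' : Multiset (Fin k → Row s c K)), AllOnX X S ∧ GalX S ∧ Multiset.Rel (SpX X π) S C ∧
    Multiset.Rel (SpX X π') S C' ∧ z = cycX C - cycX C'}

/-- replace the points with indices in `J` by `o` -/
noncomputable def rep (J : Finset (Fin k × Fin c)) (R : Fin k → Row s c K) : Fin k → Row s c K :=
  fun i => ⟨(R i).β, fun j => if (i, j) ∈ J then o s K else (R i).P j⟩

/-- the zero-cycle `⟨R_0⟩ × ... × ⟨R_(k-1)⟩`, where `⟨(β; P_0, .., P_(c-1))⟩` is the sum over the subsets `J` of `Fin c` of
`(-1)^|J|` times the point obtained from `(β; P_0, .., P_(c-1))` by replacing `P_j` by `o` for `j ∈ J` -/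
noncomputable def prodX (R : Fin k → Row s c K) : CycX k s c K :=
  ∑ J : Finset (Fin k × Fin c), (-1 : ℤ) ^ J.card • ptX (rep J R)

/-- `∑_σ sgn(σ)^c ⟨R_σ(0)⟩ × ... × ⟨R_σ(k-1)⟩` -/
noncomputable def altX (R : Fin k → Row s c K) : CycX k s c K :=
  ∑ σ : Equiv.Perm (Fin k), ((Equiv.Perm.sign σ : ℤ)) ^ c • prodX (fun i => R (σ i))

/-- the rows with given base points and columns -/
def rows {F : Type} (β : Fin k → Fin s → F) (P : Fin c → Fin k → Pt s F) : Fin k → Row s c F :=
  fun i => ⟨β i, fun j => P j i⟩

end FX
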