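import Pool.Agent.H8.FX.Theta
import Pool.Agent.H34.ES.ExtF

/-! # FX.Slt : relations for one point (slot `i`, column `j`) of a tuple of rows (about 250 lines)

`col_norm`: for each `i` (`OnX.ov`) `((R i).P j).β = d ^ v * (R i).β`, put `Q i := ((R i).P j).smul (X.W j) d⁻¹` (`OnW_smul`); change the slots one after the other with `clsX_scale` (induction over a `Finset` of slots, or over `Finset.univ`: the statement
`clsX X (fun i => if i ∈ S then ⟨(R i).β, Function.update (R i).P j (Q i)⟩ else R i) = clsX X R`).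
`slotX`: let `R' := setP R i j (o s K)`-like: the rows `R` with the point in slot `i`, column `j` replaced by any fixed point with base vector `(R i).β` (e.g. `⟨(R i).β, x0, 0⟩` with `x0` a root of the cubic, `K` algebraically closed), and normalise column `j` (`col_norm`): the normalised points
`⟨(R l).β, x_l, y_l⟩`, `l ≠ i`, give `Q l := ⟨bv l, x_l, y_l⟩` (`FM_on`), `Q i := ⟨bv i, x0, 0⟩`.  `θ` of `theta` (with `β l := (R l).β`, `P := fun j' l => (R l).P j'`, and `σ = 1`) applied to `sl Q i ⟨bv i, x, y⟩ = cls (Function.update Q i ⟨bv i, x, y⟩)` is the class of the rows in which all points of column `j`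
are normalised; undo the normalisation of the slots `l ≠ i` (`col_norm` for the rows `setP R i j ⟨(R i).β, x, y⟩`; the scalars in `col_norm` may be taken to be the same: they only depend on `(R l).β` and `((R l).P j).β`; it may be convenient to prove `col_norm` for given scalars).
If the point `⟨(R i).β, x, y⟩` is not on `X.W j` the formula is not needed: assume `hxy`.
`clsX_sing`: if some `((R l).P j).β = 0` then `clsX_zero`; otherwise normalise slot `i` (`clsX_scale`), `slotX`, `sl_sing` for `FMj` (`dd` at `bv i` is `dd (X.W j) (R i).β = 0`: `FM_a`, `FM_b`).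
`clsX_neg`: the same with `sl_neg` (`((R i).P j).neg` and scaling commute).
`clsX_line`: `sl_line` (all points `⟨(R i).β, x, m x + n⟩` are on `X.W j`: `epol_root`), `map_multiset_sum`; if some other point of the column has zero base vector all terms are `0` (`clsX_zero`).
`ext_fibX`: `ext_fib` for `h.comp θ`, the same reduction. -/

namespace FX

open ES H68.BB

variable {K : Type} [Field K] [IsAlgClosed K] [CharZero K] {s c k : ℕ} {X : XD K s c}

omit [IsAlgClosed K] [CharZero K] in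
private theorem slt_one (W : Wm K s) (P : Pt s K) : P.smul W 1 = P := by
  unfold Pt.smul
  ext <;> simp

omit [CharZero K] in
/-- scaling the points of a tuple of rows -/
private theorem slt_scale {R R' : Fin k → Row s c K} (hR : ∀ i, OnX X (R i)) (hβ : ∀ i, (R' i).β = (R i).β)
    (hP : ∀ i j, ∃ d : K, d ≠ 0 ∧ (R' i).P j = ((R i).P j).smul (X.W j) d) : clsX X R' = clsX X R := by
  obtain ⟨π, -, -⟩ := place_exists K 0
  refine clsX_eq_of_sp (X := X) (S := fun i => (R i).map (algebraMap K (Om K))) (fun i => OnX_cst (hR i))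
    (fun σ i => map_cstR σ (R i)) (π := π) (π' := π) (fun i => ?_) (fun i => SpR_cst π (hR i))
  have h := SpR_cst π (hR i)
  refine ⟨?_, fun j => ?_⟩
  · rw [hβ i]
    exact h.β
  · obtain ⟨d, hd, he⟩ := hP i j
    rw [he]
    exact Sp_smul (h.P j) hd

omit [IsAlgClosed K] [CharZero K] in
private theorem slt_self (R : Fin k → Row s c K) (i : Fin k) (j : Fin c) (Q : Pt s K) :
    setP R i j Q i = ⟨(R i).β, Function.update (R i).P j Q⟩ := by
  unfold setP
  rw [Function.update_self]

omit [IsAlgClosed K] [CharZero K] in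
private theorem slt_ne (R : Fin k → Row s c K) {i l : Fin k} (hl : l ≠ i) (j : Fin c) (Q : Pt s K) :
    setP R i j Q l = R l := by
  unfold setP
  rw [Function.update_of_ne hl]

omit [IsAlgClosed K] [CharZero K] in
private theorem slt_on {R : Fin k → Row s c K} (hR : ∀ i, OnX X (R i)) (i : Fin k) (j : Fin c) {Q : Pt s K}
    (hQ : OnW (X.W j) Q) (ho : Over X.v (R i).β Q.β) : ∀ l, OnX X (setP R i j Q l) := by
  intro l
  by_cases hl : l = i
  · subst hl
    rw [slt_self]
    refine ⟨(hR l).ne, (hR l).I, fun j' => ?_, fun j' => ?_⟩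
    · show OnW (X.W j') (Function.update (R l).P j Q j')
      by_cases hj : j' = j
      · subst hj
        rw [Function.update_self]
        exact hQ
      · rw [Function.update_of_ne hj]
        exact (hR l).on j'
    · show Over X.v (R l).β (Function.update (R l).P j Q j').β
      by_cases hj : j' = j
      · subst hj
        rw [Function.update_self]
        exact ho
      · rw [Function.update_of_ne hj]
        exact (hR l).ov j'
  · rw [slt_ne R hl]
    exact hR l

omit [IsAlgClosed K] [CharZero K] in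
private theorem slt_over (v : Fin s → ℕ) (β : Fin s → K) : Over v β β := by
  refine Or.inr ⟨1, one_ne_zero, ?_⟩
  funext i
  rw [one_pow, one_mul]

private theorem slt_set {R : Fin k → Row s c K} (hR : ∀ i, OnX X (R i)) (i : Fin k) (j : Fin c) {Q : Pt s K}
    (hQ : OnW (X.W j) Q) (ho : Over X.v (R i).β Q.β) {d : K} (hd : d ≠ 0) :
    clsX X (setP R i j (Q.smul (X.W j) d)) = clsX X (setP R i j Q) := by
  refine slt_scale (slt_on hR i j hQ ho) (fun l => ?_) (fun l j' => ?_)
  · by_cases hl : l = i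
    · subst hl
      rw [slt_self, slt_self]
    · rw [slt_ne R hl, slt_ne R hl]
  · by_cases hl : l = i
    · subst hl
      rw [slt_self, slt_self]
      show ∃ d' : K, d' ≠ 0 ∧ Function.update (R l).P j (Q.smul (X.W j) d) j' =
        (Function.update (R l).P j Q j').smul (X.W j') d'
      by_cases hj : j' = j
      · subst hj
        refine ⟨d, hd, ?_⟩
        rw [Function.update_self, Function.update_self]
      · refine ⟨1, one_ne_zero, ?_⟩
        rw [Function.update_of_ne hj, Function.update_of_ne hj, slt_one]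
    · rw [slt_ne R hl, slt_ne R hl]
      exact ⟨1, one_ne_zero, (slt_one _ _).symm⟩

omit [IsAlgClosed K] [CharZero K] in
/-- normalising a point with nonzero base vector -/
private theorem slt_norm (hX : X.Ok) {r : Row s c K} (hr : OnX X r) (j : Fin c) (h0 : (r.P j).β ≠ 0) :
    ∃ d x y : K, d ≠ 0 ∧ (r.P j).smul (X.W j) d = ⟨r.β, x, y⟩ ∧
      y ^ 2 = x ^ 3 - 3 * ev (X.a j) r.β * x - 2 * ev (X.b j) r.β := by
  rcases hr.ov j with h | ⟨d, hd, h⟩
  · exact absurd h h0
  · have e : (r.P j).smul (X.W j) d⁻¹ = ⟨r.β, ((r.P j).smul (X.W j) d⁻¹).x, ((r.P j).smul (X.W j) d⁻¹).y⟩ := by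
      ext m
      · show d⁻¹ ^ X.v m * (r.P j).β m = r.β m
        rw [h]
        show d⁻¹ ^ X.v m * (d ^ X.v m * r.β m) = r.β m
        rw [← mul_assoc, ← mul_pow, inv_mul_cancel₀ hd, one_pow, one_mul]
      · rfl
      · rfl
    refine ⟨d⁻¹, _, _, inv_ne_zero hd, e, ?_⟩
    have h1 := (OnW_smul (hX.W j) (hr.on j) (inv_ne_zero hd)).2.2
    rw [e] at h1
    exact h1

omit [IsAlgClosed K] [CharZero K] in
private theorem slt_onW {R : Fin k → Row s c K} (hR : ∀ i, OnX X (R i)) (i : Fin k) (j : Fin c) {x y : K}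
    (h : y ^ 2 = x ^ 3 - 3 * ev (X.a j) (R i).β * x - 2 * ev (X.b j) (R i).β) : OnW (X.W j) (⟨(R i).β, x, y⟩ : Pt s K) :=
  ⟨Or.inl (hR i).ne, (hR i).I, h⟩

omit [IsAlgClosed K] [CharZero K] in
private theorem slt_bv (i : ℕ) : (bv i : Fin 2 → K) ≠ 0 := by
  intro h
  have h1 := congrFun h 0
  exact one_ne_zero (show (1 : K) = 0 from h1)

theorem col_norm {R : Fin k → Row s c K} (hR : ∀ i, OnX X (R i)) (j : Fin c) {d : Fin k → K} (hd : ∀ i, d i ≠ 0) :
    clsX X (fun i => ⟨(R i).β, Function.update (R i).P j (((R i).P j).smul (X.W j) (d i))⟩) = clsX X R := by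
  refine slt_scale hR (fun i => rfl) (fun i j' => ?_)
  show ∃ d' : K, d' ≠ 0 ∧ Function.update (R i).P j (((R i).P j).smul (X.W j) (d i)) j' = ((R i).P j').smul (X.W j') d'
  by_cases hj : j' = j
  · subst hj
    exact ⟨d i, hd i, by rw [Function.update_self]⟩
  · exact ⟨1, one_ne_zero, by rw [Function.update_of_ne hj, slt_one]⟩

theorem slotX (hX : X.Ok) (hk : 0 < k) {R : Fin k → Row s c K} (hR : ∀ i, OnX X (R i)) (i : Fin k) (j : Fin c)
    (h0 : ∀ l, l ≠ i → ((R l).P j).β ≠ 0) :
    ∃ (h : AA k (FMj X (fun l => (R l).β) j) →+ AAX k X) (Q : Fin k → Pt 2 K), (∀ l, OnW (FMj X (fun l => (R l).β) j) (Q l)) ∧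
      ∀ x y : K, y ^ 2 = x ^ 3 - 3 * ev (X.a j) (R i).β * x - 2 * ev (X.b j) (R i).β →
        h (sl (FMj X (fun l => (R l).β) j) Q i ⟨bv (i : ℕ), x, y⟩) = clsX X (setP R i j ⟨(R i).β, x, y⟩) := by
  classical
  have hN : ∀ l, ∃ d x y : K, (l ≠ i → d ≠ 0 ∧ ((R l).P j).smul (X.W j) d = ⟨(R l).β, x, y⟩) ∧
      y ^ 2 = x ^ 3 - 3 * ev (X.a j) (R l).β * x - 2 * ev (X.b j) (R l).β := by
    intro l
    by_cases hl : l = i
    · obtain ⟨x, hx⟩ := IsAlgClosed.exists_root (epol (ev (X.a j) (R l).β) (ev (X.b j) (R l).β) 0 0)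
        (Polynomial.degree_ne_of_natDegree_ne (by rw [epol_deg]; norm_num))
      have h1 := epol_root ((Polynomial.mem_roots (epol_ne _ _ _ _)).2 hx)
      refine ⟨1, x, 0, fun h => absurd hl h, ?_⟩
      rw [← h1]
      ring
    · obtain ⟨d, x, y, hd, he, hxy⟩ := slt_norm hX (hR l) j (h0 l hl)
      exact ⟨d, x, y, fun _ => ⟨hd, he⟩, hxy⟩
  choose d x y h1 h2 using hN
  obtain ⟨θ, hθ⟩ := theta (X := X) hX hk (β := fun l => (R l).β) (P := fun j' l => (R l).P j') (fun l => hR l) j
  refine ⟨θ, fun l => ⟨bv (l : ℕ), x l, y l⟩, fun l => (FM_on l).2 (h2 l), fun u w huw => ?_⟩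
  have h3 := hθ 1 (Function.update (fun l : Fin k => (⟨bv (l : ℕ), x l, y l⟩ : Pt 2 K)) i ⟨bv (i : ℕ), u, w⟩) (fun l => by
    by_cases hl : l = i
    · subst hl
      rw [Function.update_self]
      rfl
    · rw [Function.update_of_ne hl]
      rfl)
  unfold sl
  rw [h3, Equiv.Perm.sign_one, Units.val_one, one_zsmul]
  refine slt_scale (slt_on hR i j (slt_onW hR i j huw) (slt_over _ _)) (fun l => ?_) (fun l j' => ?_)
  · show (R l).β = _
    by_cases hl : l = i
    · subst hl
      rw [slt_self]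
    · rw [slt_ne R hl]
  · show ∃ d' : K, d' ≠ 0 ∧ Function.update (fun j' l => (R l).P j') j (fun l => (⟨(R l).β,
      (Function.update (fun l : Fin k => (⟨bv (l : ℕ), x l, y l⟩ : Pt 2 K)) i ⟨bv (i : ℕ), u, w⟩ l).x,
      (Function.update (fun l : Fin k => (⟨bv (l : ℕ), x l, y l⟩ : Pt 2 K)) i ⟨bv (i : ℕ), u, w⟩ l).y⟩ : Pt s K)) j' l =
        ((setP R i j ⟨(R i).β, u, w⟩ l).P j').smul (X.W j') d'
    by_cases hl : l = i
    · subst hl
      rw [slt_self]
      show ∃ d' : K, d' ≠ 0 ∧ _ = (Function.update (R l).P j ⟨(R l).β, u, w⟩ j').smul (X.W j') d'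
      refine ⟨1, one_ne_zero, ?_⟩
      rw [slt_one]
      by_cases hj : j' = j
      · subst hj
        rw [Function.update_self, Function.update_self, Function.update_self]
      · rw [Function.update_of_ne hj, Function.update_of_ne hj]
    · rw [slt_ne R hl]
      by_cases hj : j' = j
      · subst hj
        refine ⟨d l, (h1 l hl).1, ?_⟩
        rw [(h1 l hl).2, Function.update_self, Function.update_of_ne hl]
      · refine ⟨1, one_ne_zero, ?_⟩
        rw [slt_one, Function.update_of_ne hj]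

/-- points of singular fibres -/
theorem clsX_sing (hX : X.Ok) (hk : 0 < k) {R : Fin k → Row s c K} (hR : ∀ i, OnX X (R i)) {i : Fin k} {j : Fin c}
    (hd : dd (X.W j) (R i).β = 0) : clsX X R = 0 := by
  by_cases h0 : ∃ l, ((R l).P j).β = 0
  · obtain ⟨l, hl⟩ := h0
    exact clsX_zero hX hR hl
  · push Not at h0
    obtain ⟨θ, Q, hQ, hθ⟩ := slotX hX hk hR i j (fun l _ => h0 l)
    obtain ⟨d, x, y, hd0, he, hxy⟩ := slt_norm hX (hR i) j (h0 i)
    rw [← clsX_scale hR i j hd0, he, ← hθ x y hxy, sl_sing (FM_ok hk _ _) hQ i ((FM_on i).2 hxy) ?_, map_zero]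
    show dd _ (bv (i : ℕ) : Fin 2 → K) = 0
    unfold dd
    rw [FM_a, FM_b]
    exact hd

/-- `P` and `-P` -/
theorem clsX_neg (hX : X.Ok) (hk : 0 < k) {R : Fin k → Row s c K} (hR : ∀ i, OnX X (R i)) (i : Fin k) (j : Fin c) :
    clsX X (setP R i j ((R i).P j).neg) = - clsX X R := by
  have hn := OnW_neg ((hR i).on j)
  by_cases h0 : ∃ l, ((R l).P j).β = 0
  · obtain ⟨l, hl⟩ := h0
    rw [clsX_zero hX hR hl, neg_zero]
    refine clsX_zero hX (slt_on hR i j hn ((hR i).ov j)) (i := l) (j := j) ?_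
    by_cases h : l = i
    · subst h
      rw [slt_self]
      show (Function.update (R l).P j _ j).β = 0
      rw [Function.update_self]
      exact hl
    · rw [slt_ne R h]
      exact hl
  · push Not at h0
    obtain ⟨θ, Q, hQ, hθ⟩ := slotX hX hk hR i j (fun l _ => h0 l)
    obtain ⟨d, x, y, hd0, he, hxy⟩ := slt_norm hX (hR i) j (h0 i)
    have e1 : ((R i).P j).neg.smul (X.W j) d = ⟨(R i).β, x, -y⟩ := by
      have e2 : ((R i).P j).neg.smul (X.W j) d = (((R i).P j).smul (X.W j) d).neg := by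
        unfold Pt.neg Pt.smul
        ext
        · rfl
        · rfl
        · exact mul_neg _ _
      rw [e2, he]
      rfl
    have hxy' : (-y) ^ 2 = x ^ 3 - 3 * ev (X.a j) (R i).β * x - 2 * ev (X.b j) (R i).β := by
      rw [neg_sq]
      exact hxy
    rw [← slt_set hR i j hn ((hR i).ov j) hd0, e1, ← clsX_scale hR i j hd0, he, ← hθ x y hxy, ← hθ x (-y) hxy',
      eq_neg_iff_add_eq_zero, add_comm, ← map_add]
    have h1 := sl_neg (FM_ok hk _ _) hQ i (Q := ⟨bv (i : ℕ), x, y⟩) ((FM_on i).2 hxy)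
    have h2 := congrArg θ h1
    rw [map_zero] at h2
    exact h2

/-- collinear points of a fibre -/
theorem clsX_line (hX : X.Ok) (hk : 0 < k) {R : Fin k → Row s c K} (hR : ∀ i, OnX X (R i)) (i : Fin k) (j : Fin c) (m n : K) :
    (((epol (ev (X.a j) (R i).β) (ev (X.b j) (R i).β) m n).roots).map
      (fun x => clsX X (setP R i j ⟨(R i).β, x, m * x + n⟩))).sum = 0 := by
  by_cases h0 : ∃ l, l ≠ i ∧ ((R l).P j).β = 0
  · obtain ⟨l, hl, h0⟩ := h0
    apply Multiset.sum_eq_zero
    intro z hz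
    obtain ⟨x, hx, rfl⟩ := Multiset.mem_map.1 hz
    refine clsX_zero hX (slt_on hR i j (slt_onW hR i j (epol_root hx)) (slt_over _ _)) (i := l) (j := j) ?_
    rw [slt_ne R hl]
    exact h0
  · push Not at h0
    obtain ⟨θ, Q, hQ, hθ⟩ := slotX hX hk hR i j h0
    have h1 := congrArg θ (sl_line (P := Q) (FM_ok hk _ _) hQ i (slt_bv (K := K) (i : ℕ)) (FM_I _ _ i) m n)
    rw [FM_a, FM_b, map_zero, map_multiset_sum, Multiset.map_map] at h1
    refine Eq.trans (congrArg Multiset.sum (Multiset.map_congr rfl fun x hx => ?_)) h1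
    exact (hθ x (m * x + n) (epol_root hx)).symm

/-- from almost all points of a fibre to all points -/
theorem ext_fibX (hX : X.Ok) (hk : 0 < k) {R : Fin k → Row s c K} (hR : ∀ i, OnX X (R i)) (i : Fin k) (j : Fin c)
    {B : Type} [AddCommGroup B] (h : AAX k X →+ B)
    (hfin : {Q : Pt s K | OnW (X.W j) Q ∧ Q.β = (R i).β ∧ h (clsX X (setP R i j Q)) ≠ 0}.Finite) {Q : Pt s K}
    (hQ : OnW (X.W j) Q) (hQβ : Q.β = (R i).β) : h (clsX X (setP R i j Q)) = 0 := by
  by_cases h0 : ∃ l, l ≠ i ∧ ((R l).P j).β = 0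
  · obtain ⟨l, hl, h0⟩ := h0
    have h1 : clsX X (setP R i j Q) = 0 := by
      refine clsX_zero hX (slt_on hR i j hQ (by rw [hQβ]; exact slt_over _ _)) (i := l) (j := j) ?_
      rw [slt_ne R hl]
      exact h0
    rw [h1, map_zero]
  · push Not at h0
    obtain ⟨θ, T, hT, hθ⟩ := slotX hX hk hR i j h0
    have hfin' : {q : Pt 2 K | OnW (FMj X (fun l => (R l).β) j) q ∧ q.β = bv (i : ℕ) ∧
        (h.comp θ) (sl (FMj X (fun l => (R l).β) j) T i q) ≠ 0}.Finite := by
      refine (hfin.image (fun Q : Pt s K => (⟨bv (i : ℕ), Q.x, Q.y⟩ : Pt 2 K))).subset ?_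
      rintro ⟨qb, qx, qy⟩ ⟨h1, h2, h3⟩
      change qb = bv (i : ℕ) at h2
      subst h2
      have h4 := (FM_on i).1 h1
      refine ⟨⟨(R i).β, qx, qy⟩, ⟨slt_onW hR i j h4, rfl, ?_⟩, rfl⟩
      rw [AddMonoidHom.comp_apply, hθ qx qy h4] at h3
      exact h3
    have h5 : Q.y ^ 2 = Q.x ^ 3 - 3 * ev (X.a j) (R i).β * Q.x - 2 * ev (X.b j) (R i).β := by
      rw [← hQβ]
      exact hQ.2.2
    have h6 := ext_fib (P := T) (FM_ok hk _ _) hT i (slt_bv (K := K) (i : ℕ)) (h.comp θ) hfin'
      (Q := ⟨bv (i : ℕ), Q.x, Q.y⟩) ((FM_on i).2 h5) rfl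
    rw [AddMonoidHom.comp_apply, hθ Q.x Q.y h5, ← hQβ] at h6
    exact h6

end FX
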