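import Pool.Agent.H8.FX.Def
import Pool.Agent.H34.ES.Lim

/-! # FX.Cls : the group `AAX` of classes of zero-cycles on `X^k` modulo decomposables and signs, and limits of multisets (complete)

As `H34/ES/Lim.lean`.  The sign of a permutation of the `k` factors is `sgn(σ)^c`. -/

namespace FX

open ES H68.BB

variable {K : Type} [Field K] {s c : ℕ} (k : ℕ) (X : XD K s c)

/-- rational equivalence, decomposable tuples and signs -/
noncomputable def RelX : AddSubgroup (CycX k s c K) :=
  AddSubgroup.closure ((RatX k X : Set (CycX k s c K)) ∪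
    {z | ∃ R : Fin k → Row s c K, (∃ i j, (R i).P j = o s K) ∧ z = ptX R} ∪
    {z | ∃ (R : Fin k → Row s c K) (σ : Equiv.Perm (Fin k)),
      z = ptX (fun i => R (σ i)) - ((Equiv.Perm.sign σ : ℤ)) ^ c • ptX R})

/-- classes of zero-cycles modulo decomposables and signs -/
abbrev AAX : Type := CycX k s c K ⧸ RelX k X

variable {k}

/-- the class of a tuple of rows -/
noncomputable def clsX (R : Fin k → Row s c K) : AAX k X := QuotientAddGroup.mk (ptX R)

/-- the class of a multiset of tuples -/
noncomputable def clMX (S : Multiset (Fin k → Row s c K)) : AAX k X := (S.map (clsX X)).sum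

/-- `S` specialises at `π` to a zero-cycle of class `e` -/
def LimX (π : Place K (Om K)) (S : Multiset (Fin k → Row s c (Om K))) (e : AAX k X) : Prop :=
  ∃ S' : Multiset (Fin k → Row s c K), Multiset.Rel (SpX X π) S S' ∧ clMX X S' = e

theorem mk_cycX (S : Multiset (Fin k → Row s c K)) : (QuotientAddGroup.mk (cycX S) : AAX k X) = clMX X S := by
  have h := map_multiset_sum (QuotientAddGroup.mk' (RelX k X)) (S.map ptX)
  rw [Multiset.map_map] at h
  exact h

/-- a tuple with a coordinate `o` has class zero -/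
theorem clsX_o {R : Fin k → Row s c K} {i : Fin k} {j : Fin c} (h : (R i).P j = o s K) : clsX X R = 0 := by
  refine (QuotientAddGroup.eq_zero_iff _).2 (AddSubgroup.subset_closure (Or.inl (Or.inr ⟨R, ⟨i, j, h⟩, rfl⟩)))

/-- permuting the factors -/
theorem clsX_perm (R : Fin k → Row s c K) (σ : Equiv.Perm (Fin k)) :
    clsX X (fun i => R (σ i)) = ((Equiv.Perm.sign σ : ℤ)) ^ c • clsX X R := by
  have h : ptX (fun i => R (σ i)) - ((Equiv.Perm.sign σ : ℤ)) ^ c • ptX R ∈ RelX k X :=
    AddSubgroup.subset_closure (Or.inr ⟨R, σ, rfl⟩)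
  have h2 := (QuotientAddGroup.eq_zero_iff _).2 h
  rw [QuotientAddGroup.mk_sub, QuotientAddGroup.mk_zsmul, sub_eq_zero] at h2
  exact h2

variable {X}

/-- the basic relation -/
theorem LimX.eq {S : Multiset (Fin k → Row s c (Om K))} {π π' : Place K (Om K)} {e e' : AAX k X}
    (hW : AllOnX X S) (hG : GalX S) (h : LimX X π S e) (h' : LimX X π' S e') : e = e' := by
  obtain ⟨S', h1, rfl⟩ := h
  obtain ⟨S'', h2, rfl⟩ := h'
  rw [← mk_cycX, ← mk_cycX, QuotientAddGroup.eq]
  apply AddSubgroup.subset_closure
  refine Or.inl (Or.inl (AddSubgroup.subset_closure ⟨S, π', π, S'', S', hW, hG, h2, h1, ?_⟩))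
  rw [neg_add_eq_sub]

variable {π : Place K (Om K)}

theorem LimX.zero : LimX (k := k) X π 0 0 :=
  ⟨0, Multiset.Rel.zero, by simp [clMX]⟩

theorem LimX.add {S T : Multiset (Fin k → Row s c (Om K))} {d e : AAX k X} (h : LimX X π S d)
    (h' : LimX X π T e) : LimX X π (S + T) (d + e) := by
  obtain ⟨S', h1, rfl⟩ := h
  obtain ⟨T', h2, rfl⟩ := h'
  exact ⟨S' + T', Multiset.Rel.add h1 h2, by simp [clMX]⟩

theorem LimX.nsmul {S : Multiset (Fin k → Row s c (Om K))} {e : AAX k X} (h : LimX X π S e) (n : ℕ) :
    LimX X π (n • S) (n • e) := by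
  induction n with
  | zero =>
    rw [zero_nsmul, zero_nsmul]
    exact LimX.zero
  | succ n ih =>
    rw [succ_nsmul, succ_nsmul]
    exact LimX.add ih h

theorem LimX.single {R : Fin k → Row s c (Om K)} {R0 : Fin k → Row s c K} (h : SpX X π R R0) :
    LimX X π {R} (clsX X R0) :=
  ⟨{R0}, Multiset.Rel.cons h Multiset.Rel.zero, by simp [clMX]⟩

theorem LimX.bind {α β : Type} {r : α → β → Prop} {A : Multiset α} {B : Multiset β} (h : Multiset.Rel r A B)
    (f : α → Multiset (Fin k → Row s c (Om K))) (g : β → AAX k X)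
    (hfg : ∀ x ∈ A, ∀ y ∈ B, r x y → LimX X π (f x) (g y)) : LimX X π (A.bind f) (B.map g).sum := by
  induction h with
  | zero => simpa using LimX.zero
  | @cons x y as bs hxy hs ih =>
    rw [Multiset.cons_bind, Multiset.map_cons, Multiset.sum_cons]
    refine LimX.add (hfg x (Multiset.mem_cons_self _ _) y (Multiset.mem_cons_self _ _) hxy) (ih ?_)
    intro x' hx' y' hy' hr
    exact hfg x' (Multiset.mem_cons_of_mem hx') y' (Multiset.mem_cons_of_mem hy') hr

/-- all members have the same limit class -/
theorem LimX.bind_const {α : Type} (A : Multiset α) (f : α → Multiset (Fin k → Row s c (Om K))) (e : AAX k X)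
    (hf : ∀ x ∈ A, LimX X π (f x) e) : LimX X π (A.bind f) (Multiset.card A • e) := by
  induction A using Multiset.induction_on with
  | empty => simpa using LimX.zero
  | cons x as ih =>
    rw [Multiset.cons_bind, Multiset.card_cons, succ_nsmul']
    exact LimX.add (hf x (Multiset.mem_cons_self _ _))
      (ih (fun x' hx' => hf x' (Multiset.mem_cons_of_mem hx')))

/-- a multiset of tuples indexed by `A`, whose limits are known -/
theorem LimX.map {α β : Type} {r : α → β → Prop} {A : Multiset α} {B : Multiset β} (h : Multiset.Rel r A B)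
    (f : α → Fin k → Row s c (Om K)) (g : β → Fin k → Row s c K)
    (hfg : ∀ x ∈ A, ∀ y ∈ B, r x y → SpX X π (f x) (g y)) :
    LimX X π (A.map f) (B.map (fun y => clsX X (g y))).sum := by
  have h1 := LimX.bind (X := X) (π := π) h (fun x => {f x}) (fun y => clsX X (g y))
    (fun x hx y hy hr => LimX.single (hfg x hx y hy hr))
  rwa [Multiset.bind_singleton] at h1

/-- the limit of a multiset of tuples all of whose members specialise to tuples of class zero -/
theorem LimX.map_zero {α : Type} (A : Multiset α) (f : α → Fin k → Row s c (Om K))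
    (hf : ∀ x ∈ A, ∃ R0, SpX X π (f x) R0 ∧ clsX X R0 = 0) : LimX X π (A.map f) 0 := by
  have h1 := LimX.bind_const (X := X) (π := π) A (fun x => {f x}) 0 (fun x hx => by
    obtain ⟨p, hp, h0⟩ := hf x hx
    rw [← h0]
    exact LimX.single hp)
  rwa [Multiset.bind_singleton, smul_zero] at h1

end FX
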