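import Pool.Agent.H8.FX.Def
import Pool.Agent.H34.ES.Spc

/-! # FX.Fm : the fibre model: a Weierstrass model over the finite base `{(1, 0), .., (1, k-1)}` of `ℙ¹` with prescribed fibres (about 200 lines)

`FM A B` has the fibre `y^2 = x^3 - 3 A_i x - 2 B_i` over `(1, i)` (Lagrange interpolation, homogenised).
`FM_ok`: products and sums of homogeneous polynomials (`v = 1`: `MvPolynomial.IsWeightedHomogeneous (fun _ => 1)`; compare `P1_ok`).
`FM_a`: all summands except the `i`-th vanish at `(1, i)`, and the factors of the `i`-th are `(i - l)⁻¹ (i - l) = 1` (characteristic zero).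
`FM_base`: the equation of the base is `∏ (β 1 - i β 0) = 0`; if `β 0 = 0` then `β 1 ^ k = 0`.
`FM_norm`: divide the equation of `P` by `(β 0)^(6k)`: `ev_scale` with the scalar `(β 0)⁻¹`.
`FM_rd`: `c * β 0 → p.β 0 ≠ 0`, `c^(2k) x → p.x`, `c^(3k) y → p.y`; `nx = c^(2k) x / (c β 0)^(2k)`.
`FM_rd_inf`: if `nx P`, `ny P` were both integral: `p.β 0 = 0` says that `c β 0 → 0`, so `c^(2k) x = (c β 0)^(2k) nx → 0` and `c^(3k) y → 0`, and `c β 1 = i c β 0 → 0`: `p = 0`, contradiction to `p.NZ`. -/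

namespace FX

open ES H68.BB MvPolynomial

variable {K : Type} [Field K] {k : ℕ}

/-- the fibre model -/
noncomputable def FM (A B : Fin k → K) : Wm K 2 where
  v := fun _ => 1
  n := k
  I := {∏ i : Fin k, (X 1 - C ((i : ℕ) : K) * X 0)}
  a := ∑ i : Fin k, C (A i) * X 0 ^ (3 * k + 1) * ∏ l ∈ Finset.univ.erase i, (C ((((i : ℕ) : K) - ((l : ℕ) : K))⁻¹) * (X 1 - C ((l : ℕ) : K) * X 0))
  b := ∑ i : Fin k, C (B i) * X 0 ^ (5 * k + 1) * ∏ l ∈ Finset.univ.erase i, (C ((((i : ℕ) : K) - ((l : ℕ) : K))⁻¹) * (X 1 - C ((l : ℕ) : K) * X 0))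

/-- the base vector `(1, i)` -/
def bv {F : Type} [Field F] (i : ℕ) : Fin 2 → F := ![1, (i : F)]

/-- the normalised coordinates of a point with `β 0 ≠ 0` -/
noncomputable def nx {F : Type} [Field F] (k : ℕ) (P : Pt 2 F) : F := P.x / P.β 0 ^ (2 * k)

/-- the normalised coordinates of a point with `β 0 ≠ 0` -/
noncomputable def ny {F : Type} [Field F] (k : ℕ) (P : Pt 2 F) : F := P.y / P.β 0 ^ (3 * k)

/-- the point lies over `(1, i)` -/
def At {F : Type} [Field F] (i : ℕ) (P : Pt 2 F) : Prop := P.β 0 ≠ 0 ∧ P.β 1 = (i : F) * P.β 0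

private theorem bv_zero {F : Type} [Field F] (i : ℕ) : (bv i : Fin 2 → F) 0 = 1 := rfl

private theorem bv_one {F : Type} [Field F] (i : ℕ) : (bv i : Fin 2 → F) 1 = (i : F) := rfl

private theorem hom_lin (i : ℕ) : IsHomogeneous (X 1 - C ((i : ℕ) : K) * X 0 : MvPolynomial (Fin 2) K) 1 := by
  refine (isHomogeneous_X K 1).sub ?_
  have h := (isHomogeneous_C (Fin 2) ((i : ℕ) : K)).mul (isHomogeneous_X K (0 : Fin 2))
  rwa [zero_add] at h

private theorem hom_lag (i : Fin k) : IsHomogeneous (∏ l ∈ Finset.univ.erase i,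
    (C ((((i : ℕ) : K) - ((l : ℕ) : K))⁻¹) * (X 1 - C ((l : ℕ) : K) * X 0)) : MvPolynomial (Fin 2) K) (k - 1) := by
  have h := IsHomogeneous.prod (R := K) (σ := Fin 2) (Finset.univ.erase i)
    (fun l : Fin k => C ((((i : ℕ) : K) - ((l : ℕ) : K))⁻¹) * (X 1 - C ((l : ℕ) : K) * X 0)) (fun _ => 1)
    (fun l _ => by
      have h1 := (isHomogeneous_C (Fin 2) ((((i : ℕ) : K) - ((l : ℕ) : K))⁻¹)).mul (hom_lin (K := K) (l : ℕ))
      rwa [zero_add] at h1)
  rw [Finset.sum_const, Finset.card_erase_of_mem (Finset.mem_univ i), Finset.card_univ, Fintype.card_fin, smul_eq_mul, mul_one] at h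
  exact h

private theorem ev_prod {F : Type} [Field F] [Algebra K F] {ι : Type} (s : Finset ι) (f : ι → MvPolynomial (Fin 2) K)
    (β : Fin 2 → F) : ev (∏ i ∈ s, f i) β = ∏ i ∈ s, ev (f i) β := map_prod (MvPolynomial.aeval β) f s

private theorem ev_lin {F : Type} [Field F] [Algebra K F] (i : ℕ) (β : Fin 2 → F) :
    ev (X 1 - C ((i : ℕ) : K) * X 0 : MvPolynomial (Fin 2) K) β = β 1 - (i : F) * β 0 := by
  unfold ev
  rw [map_sub, map_mul, aeval_X, aeval_X, aeval_C, map_natCast]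

private theorem ev_lag [CharZero K] {F : Type} [Field F] [Algebra K F] (A : Fin k → K) (m : ℕ) (i : Fin k) :
    ev (∑ i : Fin k, C (A i) * X 0 ^ m * ∏ l ∈ Finset.univ.erase i,
      (C ((((i : ℕ) : K) - ((l : ℕ) : K))⁻¹) * (X 1 - C ((l : ℕ) : K) * X 0)) : MvPolynomial (Fin 2) K) (bv i : Fin 2 → F) =
      algebraMap K F (A i) := by
  have h1 : ∀ j : Fin k, ev (C (A j) * X 0 ^ m * ∏ l ∈ Finset.univ.erase j,
      (C ((((j : ℕ) : K) - ((l : ℕ) : K))⁻¹) * (X 1 - C ((l : ℕ) : K) * X 0)) : MvPolynomial (Fin 2) K) (bv i : Fin 2 → F) =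
      algebraMap K F (A j) * ∏ l ∈ Finset.univ.erase j,
        (algebraMap K F ((((j : ℕ) : K) - ((l : ℕ) : K))⁻¹) * (((i : ℕ) : F) - ((l : ℕ) : F))) := by
    intro j
    have e0 : ev (C (A j) * X 0 ^ m * ∏ l ∈ Finset.univ.erase j,
      (C ((((j : ℕ) : K) - ((l : ℕ) : K))⁻¹) * (X 1 - C ((l : ℕ) : K) * X 0)) : MvPolynomial (Fin 2) K) (bv i : Fin 2 → F) =
      ev (C (A j) * X 0 ^ m : MvPolynomial (Fin 2) K) (bv i : Fin 2 → F) * ev (∏ l ∈ Finset.univ.erase j,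
      (C ((((j : ℕ) : K) - ((l : ℕ) : K))⁻¹) * (X 1 - C ((l : ℕ) : K) * X 0)) : MvPolynomial (Fin 2) K) (bv i : Fin 2 → F) :=
      map_mul (MvPolynomial.aeval (bv (i : ℕ) : Fin 2 → F)) _ _
    rw [e0, ev_prod]
    congr 1
    · unfold ev
      rw [map_mul, map_pow, aeval_X, aeval_C, bv_zero, one_pow, mul_one]
    · refine Finset.prod_congr rfl fun l _ => ?_
      have e1 : ev (C ((((j : ℕ) : K) - ((l : ℕ) : K))⁻¹) * (X 1 - C ((l : ℕ) : K) * X 0) : MvPolynomial (Fin 2) K)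
        (bv i : Fin 2 → F) = ev (C ((((j : ℕ) : K) - ((l : ℕ) : K))⁻¹) : MvPolynomial (Fin 2) K) (bv i : Fin 2 → F) *
          ev (X 1 - C ((l : ℕ) : K) * X 0 : MvPolynomial (Fin 2) K) (bv i : Fin 2 → F) :=
        map_mul (MvPolynomial.aeval (bv (i : ℕ) : Fin 2 → F)) _ _
      rw [e1, ev_lin, bv_one, bv_zero, mul_one]
      congr 1
      exact aeval_C _ _
  have e : ev (∑ i : Fin k, C (A i) * X 0 ^ m * ∏ l ∈ Finset.univ.erase i,
      (C ((((i : ℕ) : K) - ((l : ℕ) : K))⁻¹) * (X 1 - C ((l : ℕ) : K) * X 0)) : MvPolynomial (Fin 2) K) (bv i : Fin 2 → F) =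
      ∑ j : Fin k, ev (C (A j) * X 0 ^ m * ∏ l ∈ Finset.univ.erase j,
      (C ((((j : ℕ) : K) - ((l : ℕ) : K))⁻¹) * (X 1 - C ((l : ℕ) : K) * X 0)) : MvPolynomial (Fin 2) K) (bv i : Fin 2 → F) :=
    map_sum (MvPolynomial.aeval (bv (i : ℕ) : Fin 2 → F)) _ _
  rw [e, Finset.sum_eq_single i]
  · rw [h1 i, Finset.prod_eq_one, mul_one]
    intro l hl
    have hne : l ≠ i := (Finset.mem_erase.1 hl).1
    have hK : (((i : ℕ) : K) - ((l : ℕ) : K)) ≠ 0 := by
      rw [sub_ne_zero]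
      intro h
      exact hne (Fin.ext (Nat.cast_injective h)).symm
    rw [show (((i : ℕ) : F) - ((l : ℕ) : F)) = algebraMap K F (((i : ℕ) : K) - ((l : ℕ) : K)) by
      rw [map_sub, map_natCast, map_natCast], ← map_mul, inv_mul_cancel₀ hK, map_one]
  · intro j _ hj
    rw [h1 j, Finset.prod_eq_zero (Finset.mem_erase.2 ⟨Ne.symm hj, Finset.mem_univ i⟩) (by rw [sub_self, mul_zero]), mul_zero]
  · intro h
    exact absurd (Finset.mem_univ i) h

theorem FM_ok (hk : 0 < k) (A B : Fin k → K) : (FM A B).Ok := by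
  refine ⟨fun _ => Nat.one_pos, hk, ?_, ?_, ?_⟩
  · intro f hf
    rw [show f = ∏ i : Fin k, (X 1 - C ((i : ℕ) : K) * X 0) from hf]
    refine ⟨∑ _i : Fin k, 1, by simpa using hk, ?_⟩
    exact IsHomogeneous.prod _ _ _ (fun i _ => hom_lin (i : ℕ))
  · have h : IsHomogeneous (∑ i : Fin k, C (A i) * X 0 ^ (3 * k + 1) * ∏ l ∈ Finset.univ.erase i,
        (C ((((i : ℕ) : K) - ((l : ℕ) : K))⁻¹) * (X 1 - C ((l : ℕ) : K) * X 0)) : MvPolynomial (Fin 2) K) (4 * k) := by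
      refine IsHomogeneous.sum _ _ _ (fun i _ => ?_)
      have h1 := ((isHomogeneous_C (Fin 2) (A i)).mul (isHomogeneous_X_pow (R := K) (0 : Fin 2) (3 * k + 1))).mul (hom_lag i)
      rw [show 4 * k = 0 + (3 * k + 1) + (k - 1) by omega]
      exact h1
    exact h
  · have h : IsHomogeneous (∑ i : Fin k, C (B i) * X 0 ^ (5 * k + 1) * ∏ l ∈ Finset.univ.erase i,
        (C ((((i : ℕ) : K) - ((l : ℕ) : K))⁻¹) * (X 1 - C ((l : ℕ) : K) * X 0)) : MvPolynomial (Fin 2) K) (6 * k) := by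
      refine IsHomogeneous.sum _ _ _ (fun i _ => ?_)
      have h1 := ((isHomogeneous_C (Fin 2) (B i)).mul (isHomogeneous_X_pow (R := K) (0 : Fin 2) (5 * k + 1))).mul (hom_lag i)
      rw [show 6 * k = 0 + (5 * k + 1) + (k - 1) by omega]
      exact h1
    exact h

theorem FM_I [CharZero K] {F : Type} [Field F] [Algebra K F] (A B : Fin k → K) (i : Fin k) :
    ∀ q ∈ (FM A B).I, ev q (bv i : Fin 2 → F) = 0 := by
  intro q hq
  rw [show q = ∏ i : Fin k, (X 1 - C ((i : ℕ) : K) * X 0) from hq, ev_prod]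
  refine Finset.prod_eq_zero (Finset.mem_univ i) ?_
  rw [ev_lin, bv_one, bv_zero, mul_one, sub_self]

theorem FM_a [CharZero K] {F : Type} [Field F] [Algebra K F] (A B : Fin k → K) (i : Fin k) :
    ev (FM A B).a (bv i : Fin 2 → F) = algebraMap K F (A i) := by
  exact ev_lag A (3 * k + 1) i

theorem FM_b [CharZero K] {F : Type} [Field F] [Algebra K F] (A B : Fin k → K) (i : Fin k) :
    ev (FM A B).b (bv i : Fin 2 → F) = algebraMap K F (B i) := by
  exact ev_lag B (5 * k + 1) i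

theorem FM_base (hk : 0 < k) {F : Type} [Field F] [Algebra K F] {A B : Fin k → K} {P : Pt 2 F} (h : OnW (FM A B) P) :
    P.β = 0 ∨ ∃ i : Fin k, At (i : ℕ) P := by
  have h1 := h.2.1 _ (Set.mem_singleton _)
  rw [ev_prod, Finset.prod_eq_zero_iff] at h1
  obtain ⟨i, -, h2⟩ := h1
  rw [ev_lin, sub_eq_zero] at h2
  by_cases h0 : P.β 0 = 0
  · left
    funext l
    match l with
    | 0 => exact h0
    | 1 => exact h2.trans (by rw [h0, mul_zero]; rfl)
  · exact Or.inr ⟨i, h0, h2⟩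

theorem At.unique [CharZero K] {F : Type} [Field F] [Algebra K F] {P : Pt 2 F} {i j : ℕ} (h : At i P) (h' : At j P) : i = j := by
  have : CharZero F := charZero_of_injective_algebraMap (algebraMap K F).injective
  have h1 : ((i : ℕ) : F) = (j : ℕ) := mul_right_cancel₀ h.1 (h.2.symm.trans h'.2)
  exact_mod_cast h1

theorem FM_on [CharZero K] {F : Type} [Field F] [Algebra K F] {A B : Fin k → K} (i : Fin k) {x y : F} :
    OnW (FM A B) (⟨bv i, x, y⟩ : Pt 2 F) ↔ y ^ 2 = x ^ 3 - 3 * algebraMap K F (A i) * x - 2 * algebraMap K F (B i) := by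
  unfold OnW
  rw [FM_a, FM_b]
  constructor
  · intro h
    exact h.2.2
  · intro h
    refine ⟨Or.inl ?_, FM_I A B i, h⟩
    intro h0
    have h1 := congrFun h0 0
    rw [show (⟨bv i, x, y⟩ : Pt 2 F).β 0 = (bv (i : ℕ) : Fin 2 → F) 0 from rfl, bv_zero] at h1
    exact one_ne_zero h1

theorem FM_norm [CharZero K] (hk : 0 < k) {F : Type} [Field F] [Algebra K F] {A B : Fin k → K} {P : Pt 2 F} (h : OnW (FM A B) P) {i : Fin k}
    (hi : At (i : ℕ) P) : ny k P ^ 2 = nx k P ^ 3 - 3 * algebraMap K F (A i) * nx k P - 2 * algebraMap K F (B i) := by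
  have hok := FM_ok hk A B
  obtain ⟨h0, h1⟩ := hi
  have hb : (fun l => (P.β 0)⁻¹ ^ (FM A B).v l * P.β l) = (bv (i : ℕ) : Fin 2 → F) := by
    funext l
    match l with
    | 0 =>
      rw [bv_zero]
      show (P.β 0)⁻¹ ^ 1 * P.β 0 = 1
      rw [pow_one, inv_mul_cancel₀ h0]
    | 1 =>
      rw [bv_one]
      show (P.β 0)⁻¹ ^ 1 * P.β 1 = _
      rw [pow_one, h1, mul_comm, mul_assoc, mul_inv_cancel₀ h0, mul_one]
  have ha := ev_scale hok.a (P.β 0)⁻¹ P.β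
  have hb' := ev_scale hok.b (P.β 0)⁻¹ P.β
  rw [hb, FM_a] at ha
  rw [hb, FM_b] at hb'
  have hE := h.2.2
  have hn : (FM A B).n = k := rfl
  rw [hn] at ha hb'
  have e1 : (P.β 0)⁻¹ ^ (3 * k) = ((P.β 0)⁻¹ ^ k) ^ 3 := by rw [← pow_mul, mul_comm]
  have e2 : (P.β 0)⁻¹ ^ (2 * k) = ((P.β 0)⁻¹ ^ k) ^ 2 := by rw [← pow_mul, mul_comm]
  have e3 : (P.β 0)⁻¹ ^ (4 * k) = ((P.β 0)⁻¹ ^ k) ^ 4 := by rw [← pow_mul, mul_comm]
  have e4 : (P.β 0)⁻¹ ^ (6 * k) = ((P.β 0)⁻¹ ^ k) ^ 6 := by rw [← pow_mul, mul_comm]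
  unfold nx ny
  rw [ha, hb', div_eq_mul_inv, div_eq_mul_inv, ← inv_pow, ← inv_pow, e1, e2, e3, e4]
  linear_combination ((P.β 0)⁻¹ ^ k) ^ 6 * hE

/-- the point over which a specialisation lies -/
theorem FM_at [CharZero K] (hk : 0 < k) {A B : Fin k → K} {π : Place K (Om K)} {P : Pt 2 (Om K)} {p : Pt 2 K} (h : Sp (FM A B) π P p) {i : ℕ}
    (hi : At i P) : p.β = 0 ∨ At i p := by
  obtain ⟨-, c, hc, h1, -, -⟩ := h
  have h2 : Rd π.V π.φ (((i : ℕ) : Om K)) ((i : ℕ) : K) := by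
    have h3 := π.const ((i : ℕ) : K)
    rw [map_natCast] at h3
    exact h3
  have h4 : p.β 1 = (i : K) * p.β 0 := by
    refine (h1 1).unique ?_
    have h5 : c ^ (FM A B).v 1 * P.β 1 = (i : Om K) * (c ^ (FM A B).v 0 * P.β 0) := by
      rw [hi.2]
      show c ^ 1 * _ = _ * (c ^ 1 * _)
      ring
    rw [h5]
    exact h2.mul (h1 0)
  by_cases h0 : p.β 0 = 0
  · left
    funext l
    match l with
    | 0 => exact h0
    | 1 => exact h4.trans (by rw [h0, mul_zero]; rfl)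
  · exact Or.inr ⟨h0, h4⟩

theorem FM_rd {A B : Fin k → K} {π : Place K (Om K)} {P : Pt 2 (Om K)} {p : Pt 2 K} (h : Sp (FM A B) π P p) {i : ℕ}
    (hi : At i P) (hp : p.β 0 ≠ 0) : Rd π.V π.φ (nx k P) (nx k p) ∧ Rd π.V π.φ (ny k P) (ny k p) := by
  have := π.isLocal
  obtain ⟨-, c, hc, h1, h2, h3⟩ := h
  have h4 : Rd π.V π.φ (c * P.β 0) (p.β 0) := by
    have h5 := h1 0
    rw [show (FM A B).v 0 = 1 from rfl, pow_one] at h5
    exact h5
  have h2' : Rd π.V π.φ (c ^ (2 * k) * P.x) p.x := h2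
  have h3' : Rd π.V π.φ (c ^ (3 * k) * P.y) p.y := h3
  constructor
  · have h6 := h2'.div (h4.pow (2 * k)) (pow_ne_zero _ hp)
    rw [mul_pow, mul_div_mul_left _ _ (pow_ne_zero _ hc)] at h6
    exact h6
  · have h6 := h3'.div (h4.pow (3 * k)) (pow_ne_zero _ hp)
    rw [mul_pow, mul_div_mul_left _ _ (pow_ne_zero _ hc)] at h6
    exact h6

theorem FM_rd_inf (hk : 0 < k) {A B : Fin k → K} {π : Place K (Om K)} {P : Pt 2 (Om K)} {p : Pt 2 K} (h : Sp (FM A B) π P p) {i : ℕ}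
    (hi : At i P) (hp : p.β = 0) : ¬ (nx k P ∈ π.V ∧ ny k P ∈ π.V) := by
  rintro ⟨hx, hy⟩
  obtain ⟨hp0, c, hc, h1, h2, h3⟩ := h
  have h4 : Rd π.V π.φ (c * P.β 0) 0 := by
    have h5 := h1 0
    rw [show (FM A B).v 0 = 1 from rfl, pow_one, hp] at h5
    exact h5
  have h2' : Rd π.V π.φ (c ^ (2 * k) * P.x) p.x := h2
  have h3' : Rd π.V π.φ (c ^ (3 * k) * P.y) p.y := h3
  have e2 : (c * P.β 0) ^ (2 * k) * nx k P = c ^ (2 * k) * P.x := by
    unfold nx
    have h7 : P.β 0 ^ (2 * k) ≠ 0 := pow_ne_zero _ hi.1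
    rw [mul_pow, mul_assoc, mul_div_cancel₀ _ h7]
  have e3 : (c * P.β 0) ^ (3 * k) * ny k P = c ^ (3 * k) * P.y := by
    unfold ny
    have h7 : P.β 0 ^ (3 * k) ≠ 0 := pow_ne_zero _ hi.1
    rw [mul_pow, mul_assoc, mul_div_cancel₀ _ h7]
  rw [← e2] at h2'
  rw [← e3] at h3'
  have h8 : p.x = 0 := by
    have h9 := (h4.pow (2 * k)).mul (Rd.of_mem (φ := π.φ) hx)
    rw [zero_pow (by omega), zero_mul] at h9
    exact h2'.unique h9
  have h10 : p.y = 0 := by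
    have h9 := (h4.pow (3 * k)).mul (Rd.of_mem (φ := π.φ) hy)
    rw [zero_pow (by omega), zero_mul] at h9
    exact h3'.unique h9
  rcases hp0 with h | h | h
  · exact h hp
  · exact h h8
  · exact h h10

end FX
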