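import Pool.Agent.H8.FX.Cls
import Pool.Agent.H67.ES.Mdef

/-! # FX.PsiX : the class of a combined list, rows whose specialisation makes every class zero (definitions only, no sorry)

A combined list is a list `l` of base vectors and for every column `j` a list `f j` of links whose base points are `l`. -/

namespace FX

open ES H68.BB

variable {K : Type} [Field K] {s c : ℕ}

/-- the base vectors of a list, as a tuple -/
def bas {F : Type} [Field F] (k : ℕ) (l : List (Fin s → F)) : Fin k → Fin s → F := fun i => l.getD i (fun _ => 0)

/-- the class of a combined list: sum over all rotations (product one in every column) of the class of the rows -/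
noncomputable def PsiX (X : XD K s c) (k : ℕ) (l : List (Fin s → K)) (f : Fin c → List (Lk s K)) : AAX k X :=
  ∑ z ∈ Fintype.piFinset (fun _ : Fin c => Z6 k K), clsX X (rows (bas k l) (fun j => tup k (f j) (z j)))

/-- the rows of a combined list over any field -/
noncomputable def rowsL {F : Type} [Field F] (k : ℕ) (l : List (Fin s → F)) (f : Fin c → List (Lk s F)) : Fin k → Row s c F :=
  rows (bas k l) (fun j i => (nth (f j) i).pt)

/-- the row specialises to a row which makes the class of every tuple on `X` zero -/
def NulX (X : XD K s c) (k : ℕ) (π : Place K (Om K)) (R : Row s c (Om K)) : Prop :=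
  ∃ r : Row s c K, SpR X π R r ∧ ∀ (Q : Fin k → Row s c K) (i : Fin k), (∀ j, OnX X (Q j)) → Q i = r → clsX X Q = 0

end FX
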