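import Pool.Agent.H8.FX.Fm
import Pool.Agent.H8.FX.Bas

/-! # FX.ThA : replacing one column by the normalised points of a tuple on the fibre model (about 200 lines)

`Pat σ Q`: `Q i` lies over `(1, σ i)`.  `newR β P j σ Q`: the rows with base vectors `β i`, columns `P l` (`l ≠ j`), and in column `j` the point over `β i` with the normalised coordinates of `Q (σ⁻¹ i)`.
`newR_on`: `FM_norm` for `Q (σ⁻¹ i)` (which lies over `(1, i)`); `NZ` since `β i ≠ 0`; `Over` with `d = 1`; the other points are constants (`OnX_cst` for the row `rows β P i`).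
`newR_gal`: `σ (algebraMap K (Om K) a) = algebraMap K (Om K) a`, `τ (x / y) = τ x / τ y`; `Function.update` by cases `l = j`.
`newR_sp`: `FM_rd` for `Q (σ⁻¹ i)`; `Sp_fin` for the point in column `j`; constants for the others (`SpR_cst` of the row `rows β P i`).
`newR_inf`: choose specialisations `R0 i` of all rows (`SpR_exists`, `newR_on`), they are on `X` (`SpR_onX`).  Look at row `i' = σ i`, column `j`: the point `(β_(i') ; nx (Q i), ny (Q i))` specialises (`Sp`, scalar `d`) to `p'`.  If `p'.β ≠ 0`: for an index `l`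
with `p'.β l ≠ 0` the element `d ^ v l * β_(i') l` reduces to `p'.β l ≠ 0`, so `β_(i') l ≠ 0` and `d ^ v l` and its inverse are integral, hence `d` and `d⁻¹` (`mem_of_pow`), hence `nx (Q i)`, `ny (Q i)`, contradiction to `FM_rd_inf`.
So `p'.β = 0` and `clsX_zero`. -/

namespace FX

open ES H68.BB

variable {K : Type} [Field K] {s c k : ℕ} {X : XD K s c}

/-- `Q i` lies over `(1, σ i)` -/
def Pat {F : Type} [Field F] (σ : Equiv.Perm (Fin k)) (Q : Fin k → Pt 2 F) : Prop := ∀ i, At ((σ i : Fin k) : ℕ) (Q i)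

/-- the rows with column `j` replaced -/
noncomputable def newR {F : Type} [Field F] [Algebra K F] (β : Fin k → Fin s → K) (P : Fin c → Fin k → Pt s K) (j : Fin c)
    (σ : Equiv.Perm (Fin k)) (Q : Fin k → Pt 2 F) : Fin k → Row s c F := fun i =>
  ⟨fun l => algebraMap K F (β i l), Function.update (fun l => (P l i).map (algebraMap K F)) j
    ⟨fun l => algebraMap K F (β i l), nx k (Q (σ.symm i)), ny k (Q (σ.symm i))⟩⟩

/-- the fibre model of column `j` -/
noncomputable abbrev FMj (X : XD K s c) (β : Fin k → Fin s → K) (j : Fin c) : Wm K 2 :=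
  FM (fun i => ev (X.a j) (β i)) (fun i => ev (X.b j) (β i))

theorem Pat_map {σ : Equiv.Perm (Fin k)} {Q : Fin k → Pt 2 (Om K)} (τ : Om K ≃ₐ[RatFunc K] Om K) :
    Pat σ (fun i => (Q i).map τ) ↔ Pat σ Q := by
  unfold Pat
  refine forall_congr' fun i => ?_
  unfold At
  have h1 : ((Q i).map τ).β 0 = τ ((Q i).β 0) := rfl
  have h2 : ((Q i).map τ).β 1 = τ ((Q i).β 1) := rfl
  rw [h1, h2]
  refine and_congr (map_ne_zero_iff τ τ.injective) ?_
  constructor
  · intro h
    apply τ.injective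
    rw [h, map_mul, map_natCast]
  · intro h
    rw [h, map_mul, map_natCast]

theorem newR_gal (β : Fin k → Fin s → K) (P : Fin c → Fin k → Pt s K) (j : Fin c) (σ : Equiv.Perm (Fin k)) (Q : Fin k → Pt 2 (Om K))
    (τ : Om K ≃ₐ[RatFunc K] Om K) : (fun i => (newR β P j σ Q i).map τ) = newR β P j σ (fun i => (Q i).map τ) := by
  funext i
  unfold newR Row.map
  have hc : ∀ c : K, τ (algebraMap K (Om K) c) = algebraMap K (Om K) c := H67.KH.sigma_cst τ
  refine Row.ext ?_ ?_
  · funext l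
    exact hc _
  · funext l
    by_cases hl : l = j
    · subst hl
      simp only [Function.update_self]
      unfold ES.Pt.map nx ny
      refine ES.Pt.ext ?_ ?_ ?_
      · funext m
        exact hc _
      · show τ ((Q (σ.symm i)).x / (Q (σ.symm i)).β 0 ^ (2 * k)) = _
        rw [map_div₀, map_pow]
      · show τ ((Q (σ.symm i)).y / (Q (σ.symm i)).β 0 ^ (3 * k)) = _
        rw [map_div₀, map_pow]
    · simp only [Function.update_of_ne hl]
      exact map_cst τ _

private theorem newR_self {F : Type} [Field F] [Algebra K F] (β : Fin k → Fin s → K) (P : Fin c → Fin k → Pt s K) (j : Fin c)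
    (σ : Equiv.Perm (Fin k)) (Q : Fin k → Pt 2 F) (i : Fin k) : (newR β P j σ Q i).P j =
      ⟨fun l => algebraMap K F (β i l), nx k (Q (σ.symm i)), ny k (Q (σ.symm i))⟩ := by
  simp only [newR, Function.update_self]

private theorem newR_ne {F : Type} [Field F] [Algebra K F] (β : Fin k → Fin s → K) (P : Fin c → Fin k → Pt s K) (j : Fin c)
    (σ : Equiv.Perm (Fin k)) (Q : Fin k → Pt 2 F) (i : Fin k) {l : Fin c} (hl : l ≠ j) :
    (newR β P j σ Q i).P l = (P l i).map (algebraMap K F) := by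
  simp only [newR, Function.update_of_ne hl]

private theorem cst_ne {β : Fin s → K} (h : β ≠ 0) : (fun l => algebraMap K (Om K) (β l)) ≠ 0 := by
  intro h1
  apply h
  funext l
  exact (map_eq_zero_iff _ (algebraMap K (Om K)).injective).1 (congrFun h1 l)

theorem newR_on [CharZero K] (hk : 0 < k) {β : Fin k → Fin s → K} {P : Fin c → Fin k → Pt s K} (hP : ∀ i, OnX X (rows β P i)) (j : Fin c)
    {σ : Equiv.Perm (Fin k)} {Q : Fin k → Pt 2 (Om K)} (hQ : ∀ i, OnW (FMj X β j) (Q i)) (h : Pat σ Q) :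
    ∀ i, OnX X (newR β P j σ Q i) := by
  intro i
  have hi := hP i
  have hne0 : β i ≠ 0 := hi.ne
  have hne : (fun l => algebraMap K (Om K) (β i l)) ≠ 0 := cst_ne hne0
  have hI : ∀ f ∈ X.I, ev f (fun l => algebraMap K (Om K) (β i l)) = 0 := by
    intro f hf
    have h1 : ev f (β i) = 0 := hi.I f hf
    rw [ev_cst, h1, map_zero]
  refine ⟨hne, hI, ?_, ?_⟩
  · intro l
    by_cases hl : l = j
    · subst hl
      rw [newR_self]
      refine ⟨Or.inl hne, hI, ?_⟩
      have h1 : At ((i : Fin k) : ℕ) (Q (σ.symm i)) := by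
        have h2 := h (σ.symm i)
        rwa [Equiv.apply_symm_apply] at h2
      have h3 := FM_norm hk (hQ (σ.symm i)) h1
      show ny k (Q (σ.symm i)) ^ 2 = nx k (Q (σ.symm i)) ^ 3 -
        3 * ev (X.a l) (fun m => algebraMap K (Om K) (β i m)) * nx k (Q (σ.symm i)) -
        2 * ev (X.b l) (fun m => algebraMap K (Om K) (β i m))
      rw [ev_cst, ev_cst]
      exact h3
    · rw [newR_ne _ _ _ _ _ _ hl]
      exact OnW_cst (hi.on l)
  · intro l
    by_cases hl : l = j
    · subst hl
      rw [newR_self]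
      refine Or.inr ⟨1, one_ne_zero, ?_⟩
      funext m
      rw [one_pow, one_mul]
      rfl
    · rw [newR_ne _ _ _ _ _ _ hl]
      rcases hi.ov l with h1 | ⟨d, hd, h1⟩
      · left
        have h2 : (P l i).β = 0 := h1
        funext m
        show algebraMap K (Om K) ((P l i).β m) = 0
        rw [h2, Pi.zero_apply, map_zero]
      · right
        have h2 : (P l i).β = fun m => d ^ X.v m * β i m := h1
        refine ⟨algebraMap K (Om K) d, (map_ne_zero_iff _ (algebraMap K (Om K)).injective).2 hd, ?_⟩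
        funext m
        show algebraMap K (Om K) ((P l i).β m) = algebraMap K (Om K) d ^ X.v m * algebraMap K (Om K) (β i m)
        rw [h2, map_mul, map_pow]

theorem newR_sp [CharZero K] {β : Fin k → Fin s → K} {P : Fin c → Fin k → Pt s K} (hP : ∀ i, OnX X (rows β P i)) (j : Fin c)
    {σ : Equiv.Perm (Fin k)} {Q : Fin k → Pt 2 (Om K)} {π : Place K (Om K)} {q : Fin k → Pt 2 K}
    (hq : SpT (FMj X β j) π Q q) (h : Pat σ Q) (h' : Pat σ q) : SpX X π (newR β P j σ Q) (newR β P j σ q) := by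
  intro i
  have hi := hP i
  have hne0 : β i ≠ 0 := hi.ne
  have hne : (fun l => algebraMap K K (β i l)) ≠ 0 := hne0
  refine ⟨⟨hne, 1, one_ne_zero, ?_⟩, ?_⟩
  · intro l
    rw [one_pow, one_mul]
    exact π.const (β i l)
  · intro l
    by_cases hl : l = j
    · subst hl
      rw [newR_self, newR_self]
      have h1 : At ((i : Fin k) : ℕ) (Q (σ.symm i)) := by
        have h2 := h (σ.symm i)
        rwa [Equiv.apply_symm_apply] at h2
      have h2 := FM_rd (hq (σ.symm i)) h1 (h' (σ.symm i)).1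
      exact Sp_fin (Or.inl hne) (fun m => π.const (β i m)) h2.1 h2.2
    · rw [newR_ne _ _ _ _ _ _ hl, newR_ne _ _ _ _ _ _ hl]
      exact Sp_cst π (hi.on l).1

theorem newR_inf [IsAlgClosed K] [CharZero K] (hX : X.Ok) (hk : 0 < k) {β : Fin k → Fin s → K} {P : Fin c → Fin k → Pt s K}
    (hP : ∀ i, OnX X (rows β P i)) (j : Fin c) {σ : Equiv.Perm (Fin k)} {Q : Fin k → Pt 2 (Om K)} {π : Place K (Om K)}
    {q : Fin k → Pt 2 K} (hQ : ∀ i, OnW (FMj X β j) (Q i)) (hq : SpT (FMj X β j) π Q q) (h : Pat σ Q) {i : Fin k}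
    (hi : (q i).β = 0) : ∃ R0, SpX X π (newR β P j σ Q) R0 ∧ clsX X R0 = 0 := by
  have hon := newR_on hk hP j hQ h
  choose R0 hR0 using fun i => SpR_exists hX π (hon i)
  have hRX : ∀ i, OnX X (R0 i) := fun i => SpR_onX hX (hon i) (hR0 i)
  refine ⟨R0, hR0, ?_⟩
  have hkey : ((R0 (σ i)).P j).β = 0 := by
    by_contra hp
    have := π.isLocal
    obtain ⟨l, hl⟩ := Function.ne_iff.1 hp
    have h1 := (hR0 (σ i)).P j
    have h2 : (newR β P j σ Q (σ i)).P j =
        ⟨fun l => algebraMap K (Om K) (β (σ i) l), nx k (Q i), ny k (Q i)⟩ := by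
      rw [newR_self, Equiv.symm_apply_apply]
    rw [h2] at h1
    obtain ⟨-, d, hd, h3, h4, h5⟩ := h1
    have hl0 : ((R0 (σ i)).P j).β l ≠ 0 := hl
    have h6 : Rd π.V π.φ (d ^ X.v l * algebraMap K (Om K) (β (σ i) l)) (((R0 (σ i)).P j).β l) := h3 l
    have hb : algebraMap K (Om K) (β (σ i) l) ≠ 0 := right_ne_zero_of_mul (h6.ne_zero hl0)
    have hb0 : β (σ i) l ≠ 0 := fun h0 => hb (by rw [h0, map_zero])
    have h7 : Rd π.V π.φ (algebraMap K (Om K) (β (σ i) l))⁻¹ (β (σ i) l)⁻¹ := Rd.inv (π.const _) hb0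
    have h8 := h6.mul h7
    rw [mul_assoc, mul_inv_cancel₀ hb, mul_one] at h8
    have h9 : ((R0 (σ i)).P j).β l * (β (σ i) l)⁻¹ ≠ 0 := mul_ne_zero hl0 (inv_ne_zero hb0)
    have h10 := h8.inv h9
    rw [← inv_pow] at h10
    have h11 : d⁻¹ ∈ π.V := mem_of_pow (hX.v l) h10.mem
    refine FM_rd_inf hk (hq i) (h i) hi ⟨?_, ?_⟩
    · have h12 := π.V.mul_mem _ _ (pow_mem h11 (2 * (X.W j).n)) h4.mem
      rw [← mul_assoc, ← mul_pow, inv_mul_cancel₀ hd, one_pow, one_mul] at h12
      exact h12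
    · have h12 := π.V.mul_mem _ _ (pow_mem h11 (3 * (X.W j).n)) h5.mem
      rw [← mul_assoc, ← mul_pow, inv_mul_cancel₀ hd, one_pow, one_mul] at h12
      exact h12
  exact clsX_zero hX hRX hkey

end FX
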