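import Pool.Agent.H8.FX.ThA

/-! # FX.ThB : the limits of the rows with a replaced column (about 120 lines)

`lim_pat`: induction on `Multiset.Rel` (`S = Q ::ₘ S'`, `C = q ::ₘ C'`, `SpT Q q`).
Case `Pat σ Q`: `filter_cons_of_pos`.  If `Pat σ q`: `LimX.single` of `newR_sp`, `LimX.add`.  If not, some `q i` does not lie over `(1, σ i)`, so `(q i).β = 0` by `FM_at`; `newR_inf` and `LimX.single` give the class `0`.
Case `¬ Pat σ Q`: `filter_cons_of_neg`; then `¬ Pat σ q`: otherwise let `i` be arbitrary; `FM_base` for `Q i`: if `(Q i).β = 0` then `(q i).β = 0` (the scaled coordinates are `0`), contradiction to `At`; if `At i' (Q i)` then by `FM_at` (`(q i).β = 0` is impossible)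
`At i' (q i)`, `At.unique`: `i' = σ i`; so `Pat σ Q`. -/

namespace FX

open ES H68.BB

variable {K : Type} [Field K] {s c k : ℕ} {X : XD K s c}

open Classical in
/-- the value of a tuple on the fibre model of column `j` -/
noncomputable def val (X : XD K s c) (β : Fin k → Fin s → K) (P : Fin c → Fin k → Pt s K) (j : Fin c) (Q : Fin k → Pt 2 K) : AAX k X :=
  ∑ σ : Equiv.Perm (Fin k), if Pat σ Q then (Equiv.Perm.sign σ : ℤ) • clsX X (newR β P j σ Q) else 0

open Classical in
theorem lim_pat [IsAlgClosed K] [CharZero K] (hX : X.Ok) (hk : 0 < k) {β : Fin k → Fin s → K} {P : Fin c → Fin k → Pt s K}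
    (hP : ∀ i, OnX X (rows β P i)) (j : Fin c) (σ : Equiv.Perm (Fin k)) {S : Multiset (Fin k → Pt 2 (Om K))}
    (hS : AllOn (FMj X β j) S) {π : Place K (Om K)} {C : Multiset (Fin k → Pt 2 K)}
    (h : Multiset.Rel (SpT (FMj X β j) π) S C) :
    LimX X π ((S.filter (Pat σ)).map (newR β P j σ)) ((C.map (fun q => if Pat σ q then clsX X (newR β P j σ q) else 0)).sum) := by
  induction h with
  | zero => simpa using LimX.zero
  | @cons Q q S' C' hQq hrel ih =>
    have hQ : ∀ i, OnW (FMj X β j) (Q i) := hS Q (Multiset.mem_cons_self _ _)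
    have hS' : AllOn (FMj X β j) S' := fun R hR => hS R (Multiset.mem_cons_of_mem hR)
    rw [Multiset.map_cons, Multiset.sum_cons]
    by_cases hp : Pat σ Q
    · rw [Multiset.filter_cons_of_pos _ hp, Multiset.map_cons, ← Multiset.singleton_add]
      refine LimX.add ?_ (ih hS')
      by_cases hq : Pat σ q
      · rw [if_pos hq]
        exact LimX.single (newR_sp hP j hQq hp hq)
      · rw [if_neg hq]
        have hex : ∃ i, (q i).β = 0 := by
          by_contra hno
          exact hq fun i => (FM_at hk (hQq i) (hp i)).resolve_left (fun h0 => hno ⟨i, h0⟩)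
        obtain ⟨i, hi⟩ := hex
        obtain ⟨R0, h1, h2⟩ := newR_inf hX hk hP j hQ hQq hp hi
        rw [← h2]
        exact LimX.single h1
    · rw [Multiset.filter_cons_of_neg _ hp]
      have hq : ¬ Pat σ q := by
        intro hq
        apply hp
        intro i
        rcases FM_base hk (hQ i) with h0 | ⟨i', hi'⟩
        · exfalso
          obtain ⟨-, d, -, hb, -, -⟩ := hQq i
          obtain ⟨hm, he⟩ := hb 0
          apply (hq i).1
          rw [← he]
          have h2 : (⟨d ^ (FMj X β j).v 0 * (Q i).β 0, hm⟩ : π.V) = 0 := by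
            apply Subtype.ext
            show d ^ (FMj X β j).v 0 * (Q i).β 0 = 0
            rw [h0]
            simp
          rw [h2, map_zero]
        · rcases FM_at hk (hQq i) hi' with h0 | h1
          · exact absurd (by rw [h0]; rfl) (hq i).1
          · rwa [← At.unique (K := K) h1 (hq i)]
      rw [if_neg hq, zero_add]
      exact ih hS'

end FX
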